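import Mathlib

/-!
# Gaussian binomials, the moments `g_r` and the Pfaffian
-/

set_option autoImplicit false

namespace Pool.Agent.N337.Asc

open Finset

variable {K : Type*} [Field K]

/-- `(q;q)_m = (1 - q) (1 - q^2) ⋯ (1 - q^m)` -/
def poch (q : K) (m : ℕ) : K := ∏ i ∈ range m, (1 - q ^ (i + 1))

/-- the Gaussian binomial coefficient `(q;q)_m / ((q;q)_k (q;q)_{m-k})`, for `k ≤ m` -/
def gauss (q : K) (m k : ℕ) : K := poch q m / (poch q k * poch q (m - k))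

/-- `g_r = ∑_{j ≤ r} [r, j]_q a^j` -/
def g (a q : K) (r : ℕ) : K := ∑ j ∈ range (r + 1), gauss q r j * a ^ j

/-- the Pfaffian of a `2n × 2n` matrix:
`(1 / (2^n n!)) ∑_σ sgn(σ) ∏_{k < n} A_{σ(2k), σ(2k+1)}` (indices start at `0`) -/
def Pf (n : ℕ) (A : Matrix (Fin (2 * n)) (Fin (2 * n)) K) : K :=
  1 / (2 ^ n * (n.factorial : K)) * ∑ σ : Equiv.Perm (Fin (2 * n)),
    ((Equiv.Perm.sign σ : ℤ) : K) *
      ∏ k : Fin n, A (σ ⟨2 * k, by omega⟩) (σ ⟨2 * k + 1, by omega⟩)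

/-- `e(n) = m (16 m^2 - 1) / 3 - (-1)^n 4 m^2` with `m = ⌊n / 2⌋` -/
def e (n : ℕ) : ℤ :=
  ((n / 2 : ℕ) : ℤ) * (16 * ((n / 2 : ℕ) : ℤ) ^ 2 - 1) / 3 - (-1) ^ n * 4 * ((n / 2 : ℕ) : ℤ) ^ 2

end Pool.Agent.N337.Asc
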