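import Pool.Agent.N337.AscFinal

/-!
# The closed forms of the two Pfaffians
-/

set_option autoImplicit false

namespace Pool.Agent.N337.Asc

open Finset Polynomial Pool.Agent.Helper929

variable {K : Type*} [Field K] {a q : K}

/-- coefficients -/
def sg (q : K) (n k : ℕ) : K :=
  q ^ ((n : ℤ) * (n - 1) - 2 * k * (n - k)) * gauss (q ^ 2) n k

/-- the sum -/
def SS (a q : K) (n : ℕ) : K := ∑ k ∈ range (n + 1), sg q n k * a ^ k

lemma sq_ne (hq : ∀ m : ℕ, 1 ≤ m → q ^ m ≠ 1) : ∀ m : ℕ, 1 ≤ m → (q ^ 2) ^ m ≠ 1 := by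
  intro m hm
  rw [← pow_mul]
  exact hq _ (by omega)

lemma pz (h0 : q ≠ 0) (b c : ℕ) (x y : ℤ) (h : (b : ℤ) + x = y + c) :
    q ^ b * q ^ x = q ^ y * q ^ c := by
  have h1 : q ^ b * q ^ x = q ^ ((b : ℤ) + x) := by rw [zpow_add₀ h0, zpow_natCast]
  have h2 : q ^ y * q ^ c = q ^ (y + c) := by rw [zpow_add₀ h0, zpow_natCast]
  rw [h1, h2, h]

lemma sg_rec (h0 : q ≠ 0) (hq : ∀ m : ℕ, 1 ≤ m → q ^ m ≠ 1) {n k : ℕ} (hk : k < n + 1) :
    sg q (n + 2) (k + 1) = q ^ (2 * n + 2) * sg q (n + 1) (k + 1) +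
      q ^ (2 * n + 2) * sg q (n + 1) k + q ^ (2 * n) * (1 - q ^ (2 * n + 2)) * sg q n k := by
  obtain ⟨d, rfl⟩ : ∃ d, n = k + d := ⟨n - k, by omega⟩
  have hQ := sq_ne hq
  have h1 := gauss_pascal hQ (m := k + d + 1) (k := k) (by omega)
  have h2 := gauss_absorb hQ (m := k + d) (k := k) (by omega)
  rw [show k + d + 1 - k = d + 1 by omega] at h2
  unfold sg
  rw [show k + d + 2 = k + d + 1 + 1 by ring, h1]
  have e1 : q ^ (2 * (k + d) + 2) * (q ^ (((k + d + 1 : ℕ) : ℤ) * (((k + d + 1 : ℕ) : ℤ) - 1) -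
      2 * ((k + 1 : ℕ) : ℤ) * (((k + d + 1 : ℕ) : ℤ) - ((k + 1 : ℕ) : ℤ))) *
        gauss (q ^ 2) (k + d + 1) (k + 1)) =
      q ^ (((k + d + 1 + 1 : ℕ) : ℤ) * (((k + d + 1 + 1 : ℕ) : ℤ) - 1) -
      2 * ((k + 1 : ℕ) : ℤ) * (((k + d + 1 + 1 : ℕ) : ℤ) - ((k + 1 : ℕ) : ℤ))) *
        ((q ^ 2) ^ (k + 1) * gauss (q ^ 2) (k + d + 1) (k + 1)) := by
    rw [← mul_assoc, ← mul_assoc, ← pow_mul]
    congr 1
    apply pz h0
    push_cast
    ring
  have e2 : q ^ (2 * (k + d) + 2) * (q ^ (((k + d + 1 : ℕ) : ℤ) * (((k + d + 1 : ℕ) : ℤ) - 1) -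
      2 * (k : ℤ) * (((k + d + 1 : ℕ) : ℤ) - (k : ℤ))) * gauss (q ^ 2) (k + d + 1) k) =
      q ^ (((k + d + 1 + 1 : ℕ) : ℤ) * (((k + d + 1 + 1 : ℕ) : ℤ) - 1) -
      2 * ((k + 1 : ℕ) : ℤ) * (((k + d + 1 + 1 : ℕ) : ℤ) - ((k + 1 : ℕ) : ℤ))) *
        ((q ^ 2) ^ (d + 1) * gauss (q ^ 2) (k + d + 1) k) := by
    rw [← mul_assoc, ← mul_assoc, ← pow_mul]
    congr 1
    apply pz h0
    push_cast
    ring
  have e3 : q ^ (2 * (k + d)) * (1 - q ^ (2 * (k + d) + 2)) *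
      (q ^ (((k + d : ℕ) : ℤ) * (((k + d : ℕ) : ℤ) - 1) -
      2 * (k : ℤ) * (((k + d : ℕ) : ℤ) - (k : ℤ))) * gauss (q ^ 2) (k + d) k) =
      q ^ (((k + d + 1 + 1 : ℕ) : ℤ) * (((k + d + 1 + 1 : ℕ) : ℤ) - 1) -
      2 * ((k + 1 : ℕ) : ℤ) * (((k + d + 1 + 1 : ℕ) : ℤ) - ((k + 1 : ℕ) : ℤ))) *
        ((1 - (q ^ 2) ^ (k + d + 1)) * gauss (q ^ 2) (k + d) k) := by
    have e4 : q ^ (2 * (k + d)) * q ^ (((k + d : ℕ) : ℤ) * (((k + d : ℕ) : ℤ) - 1) -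
      2 * (k : ℤ) * (((k + d : ℕ) : ℤ) - (k : ℤ))) =
      q ^ (((k + d + 1 + 1 : ℕ) : ℤ) * (((k + d + 1 + 1 : ℕ) : ℤ) - 1) -
      2 * ((k + 1 : ℕ) : ℤ) * (((k + d + 1 + 1 : ℕ) : ℤ) - ((k + 1 : ℕ) : ℤ))) := by
      rw [← zpow_natCast, ← zpow_add₀ h0]
      congr 1
      push_cast
      ring
    rw [← e4, ← pow_mul]
    ring
  rw [e1, e2, e3, ← mul_add, ← mul_add, ← h2]
  congr 1
  ring

lemma sg_zero (hq : ∀ m : ℕ, 1 ≤ m → q ^ m ≠ 1) (n : ℕ) :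
    sg q n 0 = q ^ ((n : ℤ) * (n - 1)) := by
  unfold sg
  rw [gauss_zero (sq_ne hq)]
  simp

lemma sg_self (hq : ∀ m : ℕ, 1 ≤ m → q ^ m ≠ 1) (n : ℕ) :
    sg q n n = q ^ ((n : ℤ) * (n - 1)) := by
  unfold sg
  rw [gauss_self (sq_ne hq)]
  simp

lemma step_pow (h0 : q ≠ 0) (n : ℕ) : q ^ (((n + 2 : ℕ) : ℤ) * (((n + 2 : ℕ) : ℤ) - 1)) =
    q ^ (2 * n + 2) * q ^ (((n + 1 : ℕ) : ℤ) * (((n + 1 : ℕ) : ℤ) - 1)) := by
  rw [← zpow_natCast, ← zpow_add₀ h0]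
  congr 1
  push_cast
  ring

lemma SS_rec (h0 : q ≠ 0) (hq : ∀ m : ℕ, 1 ≤ m → q ^ m ≠ 1) (n : ℕ) :
    SS a q (n + 2) = (1 + a) * q ^ (2 * n + 2) * SS a q (n + 1) +
      a * q ^ (2 * n) * (1 - q ^ (2 * n + 2)) * SS a q n := by
  have h1 : SS a q (n + 2) = ∑ k ∈ range (n + 1), sg q (n + 2) (k + 1) * a ^ (k + 1) +
      sg q (n + 2) 0 + sg q (n + 2) (n + 2) * a ^ (n + 2) := by
    unfold SS
    rw [sum_range_succ (n := n + 2), sum_range_succ' (n := n + 1)]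
    simp
  have h2 : SS a q (n + 1) = ∑ k ∈ range (n + 1), sg q (n + 1) (k + 1) * a ^ (k + 1) +
      sg q (n + 1) 0 := by
    unfold SS
    rw [sum_range_succ' (n := n + 1)]
    simp
  have h3 : SS a q (n + 1) = ∑ k ∈ range (n + 1), sg q (n + 1) k * a ^ k +
      sg q (n + 1) (n + 1) * a ^ (n + 1) := by
    unfold SS
    rw [sum_range_succ]
  have h4 : ∑ k ∈ range (n + 1), sg q (n + 2) (k + 1) * a ^ (k + 1) =
      q ^ (2 * n + 2) * ∑ k ∈ range (n + 1), sg q (n + 1) (k + 1) * a ^ (k + 1) +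
      a * q ^ (2 * n + 2) * ∑ k ∈ range (n + 1), sg q (n + 1) k * a ^ k +
      a * q ^ (2 * n) * (1 - q ^ (2 * n + 2)) * SS a q n := by
    unfold SS
    rw [mul_sum, mul_sum, mul_sum, ← sum_add_distrib, ← sum_add_distrib]
    apply sum_congr rfl
    intro k hk
    rw [sg_rec h0 hq (mem_range.1 hk)]
    ring
  have h5 : (1 + a) * q ^ (2 * n + 2) * SS a q (n + 1) =
      q ^ (2 * n + 2) * SS a q (n + 1) + a * q ^ (2 * n + 2) * SS a q (n + 1) := by ring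
  rw [h5]
  nth_rewrite 1 [h2]
  rw [h3, h1, h4, sg_zero hq, sg_self hq, sg_zero hq, sg_self hq, step_pow h0]
  ring

lemma SS_zero (hq : ∀ m : ℕ, 1 ≤ m → q ^ m ≠ 1) : SS a q 0 = 1 := by
  unfold SS
  simp [sg_zero hq]

lemma SS_one (hq : ∀ m : ℕ, 1 ≤ m → q ^ m ≠ 1) : SS a q 1 = 1 + a := by
  unfold SS
  rw [sum_range_succ, sum_range_one, sg_zero hq, sg_self hq]
  simp

lemma Fb_b1 (h0 : q ≠ 0) (hq : ∀ m : ℕ, 1 ≤ m → q ^ m ≠ 1) (n : ℕ) :
    Fb (b1 a q) (c1 a q) (2 * n) 0 = R1 a q n * SS a q n := by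
  induction n using Nat.strong_induction_on with
  | _ n ih =>
    rcases n with _ | n
    · rw [mul_zero, Fb_zero, R1, range_zero, prod_empty, SS_zero hq, mul_one]
    · rcases n with _ | n
      · rw [show 2 * (0 + 1) = 2 by rfl, Fb_two, R1, SS_one hq, zero_add, prod_range_one, b0, b1]
        simp only [mul_zero, pow_zero]
        ring
      · have r1 : R1 a q (n + 2) = R1 a q (n + 1) * b0 a q (2 * (n + 1)) := by
          unfold R1
          rw [prod_range_succ (n := n + 1)]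
        have r2 : R1 a q (n + 1) = R1 a q n * b0 a q (2 * n) := by
          unfold R1
          rw [prod_range_succ]
        rw [Fb_right, ih (n + 1) (by omega), ih n (by omega), SS_rec h0 hq, r1, r2]
        rw [show 0 + 2 * n + 2 = 2 * (n + 1) by ring, zero_add]
        unfold b0 b1 c1
        rw [show 2 * n + 1 + 1 = 2 * (n + 1) by ring, hn]
        ring

lemma Pf_eq [CharZero K] (n : ℕ) (A : Matrix (Fin (2 * n)) (Fin (2 * n)) K)
    (hA : ∀ i j, A i j = - A j i) : Pf n A = pf (2 * n) A := by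
  have h := pfSum_eq n A hA
  have h1 : Pf n A = 1 / (2 ^ n * (n.factorial : K)) * pfSum n A := rfl
  rw [h1, h]
  have h2 : (n.factorial : K) ≠ 0 := by exact_mod_cast n.factorial_ne_zero
  field_simp

theorem main_one [CharZero K] (hq : ∀ m : ℕ, 1 ≤ m → q ^ m ≠ 1) (n : ℕ)
    (hn : 1 ≤ n) :
    Pf n (Matrix.of fun i j : Fin (2 * n) =>
      (q ^ (i : ℕ) - q ^ (j : ℕ)) * g a q ((i : ℕ) + (j : ℕ) - 1)) =
    a ^ (n * (n - 1)) * q ^ (e n - 2 * ((n / 2 : ℕ) : ℤ) * (((n - 1) / 2 : ℕ) : ℤ)) *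
      ∏ k ∈ range n, poch q (2 * k + 1) := by
  rw [Pf_eq]
  · have h1 : (Matrix.of fun i j : Fin (2 * n) =>
        (q ^ (i : ℕ) - q ^ (j : ℕ)) * g a q ((i : ℕ) + (j : ℕ) - 1)) =
        Matrix.of fun i j : Fin (2 * n) => skewForm a q 1 (X ^ (i : ℕ)) (X ^ (j : ℕ)) := by
      ext i j
      rw [Matrix.of_apply, Matrix.of_apply]
      rcases Nat.eq_zero_or_pos ((i : ℕ) + (j : ℕ)) with h | h
      · have hi : (i : ℕ) = 0 := by omega
        have hj : (j : ℕ) = 0 := by omega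
        rw [hi, hj]
        unfold skewForm
        simp
      · have := skewForm_X (a := a) (q := q) (i : ℕ) (j : ℕ) 0 (Or.inr h)
        rw [pow_zero, zero_add] at this
        exact this.symm
    have h2 : (Matrix.of fun i j : Fin (2 * n) => skewForm a q 1 (U a q i) (U a q j)) =
        Matrix.of fun i j : Fin (2 * n) => band (b0 a q) (fun _ => 0) (0 + i) (0 + j) := by
      ext i j
      rw [Matrix.of_apply, Matrix.of_apply, skew_one hq, zero_add, zero_add]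
    rw [h1, pf_change, h2]
    change Fb (b0 a q) (fun _ => 0) (2 * n) 0 = _
    rw [Fb_b0, R1_closed, e_eq n hn]
    congr 2
    rw [← zpow_natCast]
    congr 1
    ring
  · intro i j
    simp only [Matrix.of_apply]
    rw [add_comm (j : ℕ) (i : ℕ)]
    ring

lemma exp_eq (n k : ℕ) (hn : 1 ≤ n) : e n + ((n : ℤ) - 2 * k) ^ 2 / 2 =
    E1 n + ((n : ℤ) * (n - 1) - 2 * k * (n - k)) := by
  rw [e_eq n hn]
  rcases Nat.even_or_odd' n with ⟨m, hm | hm⟩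
  · have e1 : n / 2 = m := by omega
    have e2 : (n - 1) / 2 = m - 1 := by omega
    rw [e1, e2, Nat.cast_sub (by omega)]
    have h1 : ((n : ℤ) - 2 * k) ^ 2 = 2 * (2 * ((m : ℤ) - k) ^ 2) := by
      rw [hm]
      push_cast
      ring
    rw [h1, Int.mul_ediv_cancel_left _ (by norm_num), hm]
    push_cast
    ring
  · have e1 : n / 2 = m := by omega
    have e2 : (n - 1) / 2 = m := by omega
    rw [e1, e2]
    have h1 : ((n : ℤ) - 2 * k) ^ 2 = 1 + 2 * (2 * ((m : ℤ) - k) ^ 2 + 2 * (m - k)) := by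
      rw [hm]
      push_cast
      ring
    rw [h1, Int.add_mul_ediv_left _ _ (by norm_num), hm]
    push_cast
    ring

theorem main_two [CharZero K] (h0 : q ≠ 0) (hq : ∀ m : ℕ, 1 ≤ m → q ^ m ≠ 1) (n : ℕ)
    (hn : 1 ≤ n) :
    Pf n (Matrix.of fun i j : Fin (2 * n) =>
      (q ^ (i : ℕ) - q ^ (j : ℕ)) * g a q ((i : ℕ) + (j : ℕ))) =
    a ^ (n * (n - 1)) * q ^ e n * (∏ k ∈ range n, poch q (2 * k + 1)) *
      ∑ k ∈ range (n + 1), q ^ (((n : ℤ) - 2 * k) ^ 2 / 2) * gauss (q ^ 2) n k * a ^ k := by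
  rw [Pf_eq]
  · have h1 : (Matrix.of fun i j : Fin (2 * n) =>
        (q ^ (i : ℕ) - q ^ (j : ℕ)) * g a q ((i : ℕ) + (j : ℕ))) =
        Matrix.of fun i j : Fin (2 * n) => skewForm a q X (X ^ (i : ℕ)) (X ^ (j : ℕ)) := by
      ext i j
      rw [Matrix.of_apply, Matrix.of_apply]
      have := skewForm_X (a := a) (q := q) (i : ℕ) (j : ℕ) 1 (Or.inl one_pos)
      rw [pow_one, show 1 + (i : ℕ) + (j : ℕ) - 1 = (i : ℕ) + (j : ℕ) by omega] at this
      exact this.symm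
    have h2 : (Matrix.of fun i j : Fin (2 * n) => skewForm a q X (U a q i) (U a q j)) =
        Matrix.of fun i j : Fin (2 * n) => band (b1 a q) (c1 a q) (0 + i) (0 + j) := by
      ext i j
      rw [Matrix.of_apply, Matrix.of_apply, skew_X hq, zero_add, zero_add]
    rw [h1, pf_change, h2]
    change Fb (b1 a q) (c1 a q) (2 * n) 0 = _
    rw [Fb_b1 h0 hq, R1_closed]
    have h3 : q ^ E1 n * SS a q n = q ^ e n *
        ∑ k ∈ range (n + 1), q ^ (((n : ℤ) - 2 * k) ^ 2 / 2) * gauss (q ^ 2) n k * a ^ k := by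
      unfold SS sg
      rw [mul_sum, mul_sum]
      apply sum_congr rfl
      intro k _
      have h4 := exp_eq n k hn
      have h5 : q ^ E1 n * q ^ ((n : ℤ) * (n - 1) - 2 * k * (n - k)) =
          q ^ e n * q ^ (((n : ℤ) - 2 * k) ^ 2 / 2) := by
        rw [← zpow_natCast, ← zpow_add₀ h0, ← zpow_add₀ h0, h4]
      linear_combination (gauss (q ^ 2) n k * a ^ k) * h5
    linear_combination (a ^ (n * (n - 1)) * ∏ k ∈ range n, poch q (2 * k + 1)) * h3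
  · intro i j
    simp only [Matrix.of_apply]
    rw [add_comm (j : ℕ) (i : ℕ)]
    ring

lemma prod_shift (q : K) (n : ℕ) :
    ∏ k ∈ range n, poch q (2 * k + 1) = ∏ k ∈ Finset.Icc 1 n, poch q (2 * k - 1) := by
  induction n with
  | zero => simp
  | succ n ih =>
    rw [prod_range_succ, ih, Finset.prod_Icc_succ_top (by omega),
      show 2 * (n + 1) - 1 = 2 * n + 1 by omega]

end Pool.Agent.N337.Asc
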