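import Pool.Agent.N337.AscForm

/-!
# The two Pfaffians
-/

set_option autoImplicit false

namespace Pool.Agent.N337.Asc

open Finset Polynomial Pool.Agent.Helper929

section gram

variable {K : Type*} [Field K] {a q : K}

/-- the skew form as a bilinear form -/
noncomputable def BF (a q : K) (w : K[X]) : K[X] →ₗ[K] K[X] →ₗ[K] K :=
  LinearMap.mk₂ K (skewForm a q w)
    (fun f f' h => by
      unfold skewForm
      rw [(D q).map_add, ← (L a q).map_add]
      congr 1
      ring)
    (fun c f h => by
      unfold skewForm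
      rw [(D q).map_smul, ← (L a q).map_smul]
      congr 1
      simp only [smul_eq_C_mul]
      ring)
    (fun f h h' => by
      unfold skewForm
      rw [(D q).map_add, ← (L a q).map_add]
      congr 1
      ring)
    (fun c f h => by
      unfold skewForm
      rw [(D q).map_smul, ← (L a q).map_smul]
      congr 1
      simp only [smul_eq_C_mul]
      ring)

lemma BF_apply (w f h : K[X]) : BF a q w f h = skewForm a q w f h := rfl

lemma skewForm_skew (w f h : K[X]) : skewForm a q w f h = - skewForm a q w h f := by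
  unfold skewForm
  rw [← map_neg]
  congr 1
  ring

lemma U_expand (N : ℕ) (i : Fin N) :
    U a q i = ∑ k : Fin N, (U a q i).coeff k • (X : K[X]) ^ (k : ℕ) := by
  conv_lhs => rw [(U a q i).as_sum_range' N ((natDegree_U_le _).trans_lt i.2)]
  rw [Finset.sum_range]
  apply Finset.sum_congr rfl
  intro k _
  rw [smul_eq_C_mul, C_mul_X_pow_eq_monomial]

/-- change of basis from the monomials to the polynomials `U_i` -/
theorem pf_change [CharZero K] (w : K[X]) (N : ℕ) :
    pf N (Matrix.of fun i j : Fin N => skewForm a q w (X ^ (i : ℕ)) (X ^ (j : ℕ))) =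
      pf N (Matrix.of fun i j : Fin N => skewForm a q w (U a q i) (U a q j)) := by
  set A : Matrix (Fin N) (Fin N) K :=
    Matrix.of fun i j : Fin N => skewForm a q w (X ^ (i : ℕ)) (X ^ (j : ℕ)) with hA
  set P : Matrix (Fin N) (Fin N) K := Matrix.of fun i k : Fin N => (U a q i).coeff k with hP
  have h1 : ∀ i j, A i j = - A j i := fun i j => skewForm_skew _ _ _
  have h2 := pf_gram A h1 P
  have h3 : P.det = 1 := by
    rw [Matrix.det_of_isLowerTriangular]
    · apply Finset.prod_eq_one
      intro i _
      rw [hP, Matrix.of_apply]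
      exact coeff_U_self _
    · intro i j hij
      rw [hP, Matrix.of_apply]
      apply coeff_eq_zero_of_natDegree_lt
      refine (natDegree_U_le _).trans_lt ?_
      exact hij
  have h4 : P * A * P.transpose =
      Matrix.of fun i j : Fin N => skewForm a q w (U a q i) (U a q j) := by
    ext i j
    rw [Matrix.of_apply, ← BF_apply, U_expand N i, U_expand N j]
    simp only [map_sum, LinearMap.sum_apply, map_smul, LinearMap.smul_apply, Matrix.mul_apply,
      Matrix.transpose_apply, hP, hA, Matrix.of_apply, smul_eq_mul, BF_apply]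
    apply Finset.sum_congr rfl
    intro k _
    rw [Finset.sum_mul, Finset.mul_sum]
    apply Finset.sum_congr rfl
    intro l _
    ring
  rw [h4, h3, one_mul] at h2
  exact h2.symm

variable (hq : ∀ m : ℕ, 1 ≤ m → q ^ m ≠ 1)

lemma D_U' (n : ℕ) : D q (U a q n) = C (1 - q ^ n) * U a q (n - 1) := by
  rcases n with _ | n
  · rw [U_zero, D_one]
    simp
  · rw [D_U, Nat.add_sub_cancel]

/-- superdiagonal of the first form -/
def b0 (a q : K) (m : ℕ) : K := (1 - q ^ (m + 1)) * hn a q m

/-- superdiagonals of the second form -/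
def b1 (a q : K) (m : ℕ) : K := (1 - q ^ (m + 1)) * ((1 + a) * q ^ m * hn a q m)

def c1 (a q : K) (m : ℕ) : K := (1 - q ^ (m + 2)) * hn a q (m + 1)

include hq in
lemma skew_one (i j : ℕ) :
    skewForm a q 1 (U a q i) (U a q j) = band (b0 a q) (fun _ => 0) i j := by
  have h1 : skewForm a q 1 (U a q i) (U a q j) =
      (1 - q ^ j) * (if i = j - 1 then hn a q (j - 1) else 0) -
      (1 - q ^ i) * (if j = i - 1 then hn a q (i - 1) else 0) := by
    unfold skewForm
    rw [D_U', D_U', one_mul, ← L_U_U hq, ← L_U_U hq, ← L_C_mul, ← L_C_mul, ← map_sub]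
    congr 1
    ring
  rw [h1]
  unfold band b0
  rcases Nat.lt_trichotomy i j with h | h | h
  · obtain ⟨d, rfl⟩ := Nat.exists_eq_add_of_lt h
    rw [if_neg (show ¬ i + d + 1 = i - 1 by omega)]
    rcases d with _ | d
    · simp
    · rw [if_neg (show ¬ i = i + (d + 1) + 1 - 1 by omega), if_neg (by omega)]
      split_ifs <;> first | omega | simp
  · subst h
    rw [sub_self, if_neg (by omega), if_neg (by omega), if_neg (by omega), if_neg (by omega)]
  · obtain ⟨d, rfl⟩ := Nat.exists_eq_add_of_lt h
    rw [if_neg (show ¬ j + d + 1 = j - 1 by omega)]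
    rcases d with _ | d
    · rw [if_neg (show ¬ j = j + 0 + 1 + 1 by omega), if_neg (show ¬ j = j + 0 + 1 + 2 by omega)]
      simp
    · rw [if_neg (show ¬ j = j + (d + 1) + 1 - 1 by omega), if_neg (by omega), if_neg (by omega),
        if_neg (by omega)]
      split_ifs <;> simp

include hq in
lemma L_X_U_U (m n : ℕ) : L a q (X * U a q m * U a q n) =
    if m + 1 = n then hn a q n else if m = n then (1 + a) * q ^ m * hn a q m else
      if m = n + 1 then hn a q m else 0 := by
  rcases m with _ | m
  · have h : X * U a q 0 * U a q n = U a q 1 * U a q n + C (1 + a) * (U a q 0 * U a q n) := by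
      rw [X_mul_U_zero]
      ring
    rw [h, map_add, L_C_mul, L_U_U hq, L_U_U hq]
    rcases n with _ | n
    · simp
    · rcases n with _ | n
      · simp
      · rw [if_neg (by omega), if_neg (by omega), if_neg (by omega), if_neg (by omega),
          if_neg (by omega)]
        ring
  · have h : X * U a q (m + 1) * U a q n = U a q (m + 2) * U a q n +
        C ((1 + a) * q ^ (m + 1)) * (U a q (m + 1) * U a q n) -
        C (a * q ^ m * (1 - q ^ (m + 1))) * (U a q m * U a q n) := by
      rw [X_mul_U]
      ring
    rw [h, map_sub, map_add, L_C_mul, L_C_mul, L_U_U hq, L_U_U hq, L_U_U hq]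
    rcases eq_or_ne n (m + 2) with rfl | h1
    · have c1 : ¬ (m + 1 = m + 2) := by omega
      have c2 : ¬ (m = m + 2) := by omega
      have c3 : m + 1 + 1 = m + 2 := by omega
      simp only [c1, c2, c3, if_true, if_false]
      ring
    · rcases eq_or_ne n (m + 1) with rfl | h2
      · have c1 : ¬ (m + 2 = m + 1) := by omega
        have c2 : ¬ (m = m + 1) := by omega
        have c3 : ¬ (m + 1 + 1 = m + 1) := by omega
        simp only [c1, c2, c3, if_true, if_false]
        ring
      · rcases eq_or_ne n m with rfl | h3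
        · have c1 : ¬ (n + 2 = n) := by omega
          have c2 : ¬ (n + 1 = n) := by omega
          have c3 : ¬ (n + 1 + 1 = n) := by omega
          simp only [c1, c2, c3, if_true, if_false, hn]
          ring
        · have c1 : ¬ (m + 2 = n) := by omega
          have c2 : ¬ (m + 1 = n) := by omega
          have c3 : ¬ (m + 1 + 1 = n) := by omega
          have c4 : ¬ (m = n) := by omega
          have c5 : ¬ (m + 1 = n + 1) := by omega
          simp only [c1, c2, c3, c4, c5, if_false]
          ring

include hq in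
lemma skew_X (i j : ℕ) :
    skewForm a q X (U a q i) (U a q j) = band (b1 a q) (c1 a q) i j := by
  have h1 : skewForm a q X (U a q i) (U a q j) =
      (1 - q ^ j) * L a q (X * U a q i * U a q (j - 1)) -
      (1 - q ^ i) * L a q (X * U a q j * U a q (i - 1)) := by
    unfold skewForm
    rw [D_U', D_U', ← L_C_mul, ← L_C_mul, ← map_sub]
    congr 1
    ring
  have key : ∀ i d : ℕ, skewForm a q X (U a q i) (U a q (i + d + 1)) =
      band (b1 a q) (c1 a q) i (i + d + 1) → skewForm a q X (U a q (i + d + 1)) (U a q i) =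
      band (b1 a q) (c1 a q) (i + d + 1) i := by
    intro i d h
    rw [skewForm_skew, h, band_skew, neg_neg]
  have main : ∀ i d : ℕ, skewForm a q X (U a q i) (U a q (i + d + 1)) =
      band (b1 a q) (c1 a q) i (i + d + 1) := by
    intro i d
    have h1 : skewForm a q X (U a q i) (U a q (i + d + 1)) =
        (1 - q ^ (i + d + 1)) * L a q (X * U a q i * U a q (i + d)) -
        (1 - q ^ i) * L a q (X * U a q (i + d + 1) * U a q (i - 1)) := by
      unfold skewForm
      rw [D_U', D_U', ← L_C_mul, ← L_C_mul, ← map_sub, Nat.add_sub_cancel]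
      congr 1
      ring
    have h2 : (1 - q ^ i) * L a q (X * U a q (i + d + 1) * U a q (i - 1)) = 0 := by
      rcases i with _ | i
      · simp
      · rw [L_X_U_U hq, if_neg (by omega), if_neg (by omega), if_neg (by omega), mul_zero]
    rw [h1, h2, sub_zero, L_X_U_U hq]
    rcases d with _ | d
    · rw [if_neg (by omega), if_pos (by omega), add_zero, band_one, b1]
    · rcases d with _ | d
      · rw [if_pos (by omega), show i + (0 + 1) + 1 = i + 2 by ring, band_two, c1]
      · rw [if_neg (by omega), if_neg (by omega), if_neg (by omega), band_far _ _ _ _ (by omega),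
          mul_zero]
  rcases Nat.lt_trichotomy i j with h | h | h
  · obtain ⟨d, rfl⟩ := Nat.exists_eq_add_of_lt h
    exact main i d
  · subst h
    rw [h1, sub_self]
    unfold band
    rw [if_neg (by omega), if_neg (by omega), if_neg (by omega), if_neg (by omega)]
  · obtain ⟨d, rfl⟩ := Nat.exists_eq_add_of_lt h
    exact key j d (main j d)

end gram

section closed

variable {K : Type*} [Field K] {a q : K}

/-- the value of the first Pfaffian -/
def R1 (a q : K) (n : ℕ) : K := ∏ k ∈ range n, b0 a q (2 * k)

lemma Fb_b0 (n : ℕ) : Fb (b0 a q) (fun _ => 0) (2 * n) 0 = R1 a q n := by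
  induction n using Nat.strong_induction_on with
  | _ n ih =>
    rcases n with _ | n
    · rw [mul_zero, Fb_zero, R1, range_zero, prod_empty]
    · rcases n with _ | n
      · rw [show 2 * (0 + 1) = 2 by rfl, Fb_two, R1]
        simp
      · rw [Fb_right, ih (n + 1) (by omega), R1, R1, prod_range_succ (n := n + 1)]
        rw [show 0 + 2 * n + 2 = 2 * (n + 1) by ring]
        ring

/-- the exponent -/
def E1 (n : ℕ) : ℕ := ∑ k ∈ range n, k * (2 * k - 1)

lemma six_E1 (n : ℕ) : 6 * (E1 n : ℤ) = n * (n - 1) * (4 * n - 5) := by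
  induction n with
  | zero => simp [E1]
  | succ n ih =>
    have h : (E1 (n + 1) : ℤ) = E1 n + n * (2 * n - 1) := by
      unfold E1
      rw [sum_range_succ]
      push_cast
      rcases n with _ | n
      · simp
      · rw [Nat.cast_sub (by omega)]
        push_cast
        ring
    rw [h, mul_add, ih]
    push_cast
    ring

lemma hn_closed (n : ℕ) : hn a q n = (-a) ^ n * q ^ (∑ i ∈ range n, i) * poch q n := by
  induction n with
  | zero => simp [hn, poch_zero]
  | succ n ih =>
    rw [hn, ih, poch_succ, sum_range_succ, pow_add, pow_succ]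
    ring

lemma R1_closed (n : ℕ) : R1 a q n = a ^ (n * (n - 1)) * q ^ E1 n *
    ∏ k ∈ range n, poch q (2 * k + 1) := by
  induction n with
  | zero => simp [R1, E1]
  | succ n ih =>
    have h1 : R1 a q (n + 1) = R1 a q n * b0 a q (2 * n) := by
      unfold R1
      rw [prod_range_succ]
    have h2 : E1 (n + 1) = E1 n + n * (2 * n - 1) := by
      unfold E1
      rw [sum_range_succ]
    have h3 : ∑ i ∈ range (2 * n), i = n * (2 * n - 1) := by
      rw [Finset.sum_range_id]
      have : 2 * n * (2 * n - 1) = 2 * (n * (2 * n - 1)) := by ring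
      rw [this, Nat.mul_div_cancel_left _ (by norm_num)]
    have h4 : (n + 1) * (n + 1 - 1) = n * (n - 1) + 2 * n := by
      rcases n with _ | n
      · rfl
      · simp only [Nat.add_sub_cancel]
        ring
    rw [h1, ih, prod_range_succ, h2, h4, b0, hn_closed, h3, poch_succ]
    rw [pow_add, pow_add, neg_pow, pow_mul (-1 : K) 2 n]
    simp only [neg_one_sq, one_pow]
    ring

/-- the exponent identity -/
lemma e_eq (n : ℕ) (hn : 1 ≤ n) :
    e n = E1 n + 2 * ((n / 2 : ℕ) : ℤ) * (((n - 1) / 2 : ℕ) : ℤ) := by
  have h6 := six_E1 n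
  unfold e
  have h3 : (3 : ℤ) ≠ 0 := by norm_num
  rcases Nat.even_or_odd' n with ⟨m, hm | hm⟩
  · have e1 : n / 2 = m := by omega
    have e2 : (n - 1) / 2 = m - 1 := by omega
    rw [e1, e2, Nat.cast_sub (by omega)]
    have e3 : (-1 : ℤ) ^ n = 1 := by
      rw [hm, pow_mul]
      norm_num
    rw [e3]
    have e4 : (m : ℤ) * (16 * (m : ℤ) ^ 2 - 1) =
        3 * (E1 n + 2 * (m : ℤ) * ((m : ℤ) - (1 : ℕ)) + 1 * 4 * (m : ℤ) ^ 2) := by
      have : (n : ℤ) = 2 * m := by exact_mod_cast hm
      rw [this] at h6
      push_cast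
      linarith
    rw [e4, Int.mul_ediv_cancel_left _ h3]
    ring
  · have e1 : n / 2 = m := by omega
    have e2 : (n - 1) / 2 = m := by omega
    rw [e1, e2]
    have e3 : (-1 : ℤ) ^ n = -1 := by
      rw [hm, pow_succ, pow_mul]
      norm_num
    rw [e3]
    have e4 : (m : ℤ) * (16 * (m : ℤ) ^ 2 - 1) =
        3 * (E1 n + 2 * (m : ℤ) * (m : ℤ) + -1 * 4 * (m : ℤ) ^ 2) := by
      have : (n : ℤ) = 2 * m + 1 := by exact_mod_cast hm
      rw [this] at h6
      push_cast
      linarith
    rw [e4, Int.mul_ediv_cancel_left _ h3]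
    ring

end closed

end Pool.Agent.N337.Asc
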