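import Pool.Agent.N337.AscMain

/-!
# The Al-Salam–Carlitz functional, its orthogonal polynomials, and the two skew forms
-/

set_option autoImplicit false

namespace Pool.Agent.N337.Asc

open Finset Polynomial Pool.Agent.Helper929

section gauss

variable {K : Type*} [Field K]

lemma poch_succ (q : K) (m : ℕ) : poch q (m + 1) = poch q m * (1 - q ^ (m + 1)) := by
  unfold poch
  rw [prod_range_succ]

lemma poch_zero (q : K) : poch q 0 = 1 := by simp [poch]

lemma poch_ne {q : K} (hq : ∀ m : ℕ, 1 ≤ m → q ^ m ≠ 1) (m : ℕ) : poch q m ≠ 0 := by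
  unfold poch
  apply prod_ne_zero_iff.2
  intro i _ h
  exact hq (i + 1) (by omega) (sub_eq_zero.1 h).symm

lemma gauss_zero {q : K} (hq : ∀ m : ℕ, 1 ≤ m → q ^ m ≠ 1) (m : ℕ) : gauss q m 0 = 1 := by
  unfold gauss
  rw [poch_zero, one_mul, Nat.sub_zero, div_self (poch_ne hq m)]

lemma gauss_self {q : K} (hq : ∀ m : ℕ, 1 ≤ m → q ^ m ≠ 1) (m : ℕ) : gauss q m m = 1 := by
  unfold gauss
  rw [Nat.sub_self, poch_zero, mul_one, div_self (poch_ne hq m)]

/-- `[m+1, k+1] = [m, k] + q^(k+1) [m, k+1]` for `k < m` -/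
lemma gauss_pascal {q : K} (hq : ∀ m : ℕ, 1 ≤ m → q ^ m ≠ 1) {m k : ℕ} (h : k < m) :
    gauss q (m + 1) (k + 1) = gauss q m k + q ^ (k + 1) * gauss q m (k + 1) := by
  obtain ⟨d, rfl⟩ := Nat.exists_eq_add_of_lt h
  unfold gauss
  rw [show k + d + 1 + 1 - (k + 1) = d + 1 by omega, show k + d + 1 - k = d + 1 by omega,
    show k + d + 1 - (k + 1) = d by omega, poch_succ q (k + d + 1), poch_succ q k, poch_succ q d]
  have h1 := poch_ne hq k
  have h2 := poch_ne hq d
  have h3 : (1 - q ^ (k + 1)) ≠ 0 := fun h => hq (k + 1) (by omega) (sub_eq_zero.1 h).symm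
  have h4 : (1 - q ^ (d + 1)) ≠ 0 := fun h => hq (d + 1) (by omega) (sub_eq_zero.1 h).symm
  field_simp
  ring

/-- `(1 - q^(m+1-k)) [m+1, k] = (1 - q^(m+1)) [m, k]` for `k ≤ m` -/
lemma gauss_absorb {q : K} (hq : ∀ m : ℕ, 1 ≤ m → q ^ m ≠ 1) {m k : ℕ} (h : k ≤ m) :
    (1 - q ^ (m + 1 - k)) * gauss q (m + 1) k = (1 - q ^ (m + 1)) * gauss q m k := by
  obtain ⟨d, rfl⟩ := Nat.exists_eq_add_of_le h
  unfold gauss
  rw [show k + d + 1 - k = d + 1 by omega, show k + d - k = d by omega, poch_succ q (k + d),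
    poch_succ q d]
  have h1 := poch_ne hq k
  have h2 := poch_ne hq d
  have h4 : (1 - q ^ (d + 1)) ≠ 0 := fun h => hq (d + 1) (by omega) (sub_eq_zero.1 h).symm
  field_simp

/-- `(1 - q^(k+1)) [m+1, k+1] = (1 - q^(m+1)) [m, k]` for `k ≤ m` -/
lemma gauss_absorb' {q : K} (hq : ∀ m : ℕ, 1 ≤ m → q ^ m ≠ 1) {m k : ℕ} (h : k ≤ m) :
    (1 - q ^ (k + 1)) * gauss q (m + 1) (k + 1) = (1 - q ^ (m + 1)) * gauss q m k := by
  obtain ⟨d, rfl⟩ := Nat.exists_eq_add_of_le h
  unfold gauss
  rw [show k + d + 1 - (k + 1) = d by omega, show k + d - k = d by omega, poch_succ q (k + d),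
    poch_succ q k]
  have h1 := poch_ne hq k
  have h2 := poch_ne hq d
  have h4 : (1 - q ^ (k + 1)) ≠ 0 := fun h => hq (k + 1) (by omega) (sub_eq_zero.1 h).symm
  field_simp

/-- coefficients of a Rogers–Szegő type sum: three-term relation -/
lemma gauss_three {q : K} (hq : ∀ m : ℕ, 1 ≤ m → q ^ m ≠ 1) {r k : ℕ} (h : k < r + 1) :
    gauss q (r + 2) (k + 1) = gauss q (r + 1) (k + 1) + gauss q (r + 1) k -
      (1 - q ^ (r + 1)) * gauss q r k := by
  have h1 := gauss_pascal hq (m := r + 1) (k := k) h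
  have h2 := gauss_absorb' hq (m := r) (k := k) (by omega)
  linear_combination h1 - h2

/-- `g_{r+2} = (1 + a) g_{r+1} - a (1 - q^(r+1)) g_r` -/
lemma g_rec {a q : K} (hq : ∀ m : ℕ, 1 ≤ m → q ^ m ≠ 1) (r : ℕ) :
    g a q (r + 2) = (1 + a) * g a q (r + 1) - a * (1 - q ^ (r + 1)) * g a q r := by
  unfold g
  rw [sum_range_succ (n := r + 2), sum_range_succ' (n := r + 1), gauss_self hq, gauss_zero hq]
  have h1 : ∑ k ∈ range (r + 1), gauss q (r + 2) (k + 1) * a ^ (k + 1) =
      ∑ k ∈ range (r + 1), gauss q (r + 1) (k + 1) * a ^ (k + 1) +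
        a * ∑ k ∈ range (r + 1), gauss q (r + 1) k * a ^ k -
        a * (1 - q ^ (r + 1)) * ∑ k ∈ range (r + 1), gauss q r k * a ^ k := by
    rw [mul_sum, mul_sum, ← sum_add_distrib, ← sum_sub_distrib]
    apply sum_congr rfl
    intro k hk
    rw [gauss_three hq (mem_range.1 hk)]
    ring
  rw [h1]
  have h2 : ∑ k ∈ range (r + 1 + 1), gauss q (r + 1) k * a ^ k =
      ∑ k ∈ range (r + 1), gauss q (r + 1) (k + 1) * a ^ (k + 1) + 1 := by
    rw [sum_range_succ', gauss_zero hq]
    simp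
  have h3 : ∑ k ∈ range (r + 1 + 1), gauss q (r + 1) k * a ^ k =
      ∑ k ∈ range (r + 1), gauss q (r + 1) k * a ^ k + a ^ (r + 1) := by
    rw [sum_range_succ, gauss_self hq]
    ring
  rw [show (1 + a) * ∑ j ∈ range (r + 1 + 1), gauss q (r + 1) j * a ^ j =
    ∑ k ∈ range (r + 1 + 1), gauss q (r + 1) k * a ^ k +
      a * ∑ k ∈ range (r + 1 + 1), gauss q (r + 1) k * a ^ k by ring]
  nth_rewrite 1 [h2]
  rw [h3]
  ring

lemma g_zero {a q : K} (hq : ∀ m : ℕ, 1 ≤ m → q ^ m ≠ 1) : g a q 0 = 1 := by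
  simp [g, gauss_zero hq]

lemma g_one {a q : K} (hq : ∀ m : ℕ, 1 ≤ m → q ^ m ≠ 1) : g a q 1 = 1 + a := by
  simp [g, sum_range_succ, gauss_zero hq, gauss_self hq]

end gauss

section form

variable {K : Type*} [Field K]

/-- the moment functional -/
noncomputable def L (a q : K) : K[X] →ₗ[K] K :=
  Polynomial.lsum fun r => (g a q r) • LinearMap.id

lemma L_monomial (a q : K) (r : ℕ) (x : K) : L a q (monomial r x) = g a q r * x := by
  simp [L, Polynomial.lsum_apply, Polynomial.sum_monomial_index]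

lemma L_X_pow (a q : K) (r : ℕ) : L a q (X ^ r) = g a q r := by
  rw [X_pow_eq_monomial, L_monomial, mul_one]

/-- the `q`-difference operator `D f = (f(x) - f(qx)) / x` -/
noncomputable def D (q : K) : K[X] →ₗ[K] K[X] :=
  Polynomial.lsum fun r => (1 - q ^ r) • monomial (r - 1)

lemma D_monomial (q : K) (r : ℕ) (x : K) :
    D q (monomial r x) = (1 - q ^ r) • monomial (r - 1) x := by
  simp [D, Polynomial.lsum_apply, Polynomial.sum_monomial_index]

lemma D_X_mul (q : K) (f : K[X]) : D q (X * f) = (1 - q) • f + q • (X * D q f) := by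
  induction f using Polynomial.induction_on' with
  | add f g hf hg =>
    rw [mul_add, map_add, hf, hg, map_add, mul_add]
    simp only [smul_add]
    abel
  | monomial r x =>
    rw [X_mul_monomial, D_monomial, D_monomial, Nat.add_sub_cancel]
    rcases r with _ | r
    · simp
    · rw [Nat.add_sub_cancel, mul_smul_comm, X_mul_monomial, smul_smul, ← add_smul]
      congr 1
      ring

lemma D_one (q : K) : D q 1 = 0 := by
  have := D_monomial q 0 1
  rw [monomial_zero_one] at this
  rw [this]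
  simp

lemma pearson {a q : K} (hq : ∀ m : ℕ, 1 ≤ m → q ^ m ≠ 1) (f : K[X]) :
    L a q (X * f) = (1 + a) * L a q f - a * L a q (D q f) := by
  induction f using Polynomial.induction_on' with
  | add f g hf hg =>
    rw [mul_add, map_add, hf, hg, map_add, map_add, map_add]
    ring
  | monomial r x =>
    rw [X_mul_monomial, D_monomial, map_smul, L_monomial, L_monomial, L_monomial, smul_eq_mul]
    rcases r with _ | r
    · rw [g_one hq, g_zero hq]
      simp
    · rw [Nat.add_sub_cancel, g_rec hq]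
      ring

/-- the Al-Salam–Carlitz polynomials -/
noncomputable def U (a q : K) : ℕ → K[X]
  | 0 => 1
  | 1 => X - C (1 + a)
  | n + 2 => X * U a q (n + 1) - C ((1 + a) * q ^ (n + 1)) * U a q (n + 1) +
      C (a * q ^ n * (1 - q ^ (n + 1))) * U a q n

lemma U_zero (a q : K) : U a q 0 = 1 := by rw [U]

lemma U_one (a q : K) : U a q 1 = X - C (1 + a) := by rw [U]

lemma U_add_two (a q : K) (n : ℕ) : U a q (n + 2) =
    X * U a q (n + 1) - C ((1 + a) * q ^ (n + 1)) * U a q (n + 1) +
      C (a * q ^ n * (1 - q ^ (n + 1))) * U a q n := by rw [U]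

lemma X_mul_U (a q : K) (n : ℕ) : X * U a q (n + 1) = U a q (n + 2) +
    C ((1 + a) * q ^ (n + 1)) * U a q (n + 1) - C (a * q ^ n * (1 - q ^ (n + 1))) * U a q n := by
  rw [U]
  ring

lemma X_mul_U_zero (a q : K) : X * U a q 0 = U a q 1 + C (1 + a) * U a q 0 := by
  rw [U, U]
  ring

lemma D_C_mul (q c : K) (f : K[X]) : D q (C c * f) = C c * D q f := by
  rw [← smul_eq_C_mul, ← smul_eq_C_mul, map_smul]

lemma D_U (a q : K) : ∀ n : ℕ, D q (U a q (n + 1)) = C (1 - q ^ (n + 1)) * U a q n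
  | 0 => by
    rw [U, U]
    have h1 : (X : K[X]) - C (1 + a) = X * 1 - C (1 + a) * 1 := by ring
    rw [h1, map_sub, D_X_mul, D_C_mul, D_one]
    rw [smul_eq_C_mul]
    simp
  | 1 => by
    have h0 := D_U a q 0
    rw [show (1 + 1 : ℕ) = 0 + 2 by rfl, U_add_two, map_add, map_sub, D_X_mul, D_C_mul, D_C_mul,
      h0, U_zero, D_one, zero_add, U_one]
    simp only [smul_eq_C_mul, map_sub, map_add, map_mul, map_pow, map_one]
    ring
  | n + 2 => by
    have h0 := D_U a q n
    have h1 := D_U a q (n + 1)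
    have h2 := X_mul_U a q n
    rw [show n + 2 + 1 = n + 1 + 2 by rfl, U_add_two, map_add, map_sub, D_X_mul, D_C_mul,
      D_C_mul, h0, h1]
    simp only [smul_eq_C_mul]
    rw [show n + 1 + 1 = n + 2 by rfl, U_add_two]
    simp only [map_sub, map_add, map_mul, map_pow, map_one]
    ring

variable {a q : K} (hq : ∀ m : ℕ, 1 ≤ m → q ^ m ≠ 1)

lemma L_C_mul (c : K) (f : K[X]) : L a q (C c * f) = c * L a q f := by
  rw [← smul_eq_C_mul, map_smul, smul_eq_mul]

include hq in
lemma L_U : ∀ n : ℕ, L a q (U a q (n + 1)) = 0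
  | 0 => by
    have h := pearson (a := a) hq (1 : K[X])
    rw [D_one, map_zero, mul_zero, sub_zero] at h
    have h1 : U a q 1 = X * 1 - C (1 + a) * 1 := by rw [U]; ring
    rw [h1, map_sub, h, L_C_mul]
    ring
  | 1 => by
    have h0 := L_U 0
    have h1 := pearson (a := a) hq (U a q (0 + 1))
    rw [D_U, L_C_mul, h0] at h1
    rw [show (1 + 1 : ℕ) = 0 + 2 by rfl, U_add_two, map_add, map_sub, h1, L_C_mul, L_C_mul, h0]
    ring
  | n + 2 => by
    have h0 := L_U (n + 1)
    have h2 := L_U n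
    have h1 := pearson (a := a) hq (U a q (n + 1 + 1))
    rw [D_U, L_C_mul, h0, h2] at h1
    rw [show n + 2 + 1 = n + 1 + 2 by rfl, U_add_two, map_add, map_sub, h1, L_C_mul, L_C_mul, h0,
      h2]
    ring

include hq in
/-- `L(x^k U_n) = 0` for `k < n` -/
lemma L_X_pow_mul_U : ∀ k n : ℕ, k < n → L a q (X ^ k * U a q n) = 0
  | 0, n, h => by
    obtain ⟨m, rfl⟩ := Nat.exists_eq_add_of_lt h
    rw [pow_zero, one_mul]
    exact L_U hq _
  | k + 1, n, h => by
    obtain ⟨m, rfl⟩ : ∃ m, n = m + 2 := ⟨n - 2, by omega⟩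
    have h1 : X ^ (k + 1) * U a q (m + 2) = X ^ k * U a q (m + 3) +
        C ((1 + a) * q ^ (m + 2)) * (X ^ k * U a q (m + 2)) -
        C (a * q ^ (m + 1) * (1 - q ^ (m + 2))) * (X ^ k * U a q (m + 1)) := by
      have := X_mul_U a q (m + 1)
      rw [pow_succ, mul_assoc, this]
      ring
    rw [h1, map_sub, map_add, L_C_mul, L_C_mul, L_X_pow_mul_U k _ (by omega),
      L_X_pow_mul_U k _ (by omega), L_X_pow_mul_U k _ (by omega)]
    ring

lemma natDegree_U_le : ∀ n : ℕ, (U a q n).natDegree ≤ n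
  | 0 => by simp [U]
  | 1 => by
    rw [U]
    exact (natDegree_sub_C).trans_le natDegree_X_le
  | n + 2 => by
    have h0 := natDegree_U_le n
    have h1 := natDegree_U_le (n + 1)
    rw [U]
    refine (natDegree_add_le _ _).trans (max_le ((natDegree_sub_le _ _).trans (max_le ?_ ?_)) ?_)
    · refine natDegree_mul_le.trans ?_
      have := natDegree_X_le (R := K)
      omega
    · refine (natDegree_C_mul_le _ _).trans ?_
      omega
    · refine (natDegree_C_mul_le _ _).trans ?_
      omega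

lemma coeff_U_self : ∀ n : ℕ, (U a q n).coeff n = 1
  | 0 => by simp [U]
  | 1 => by
    rw [U_one, coeff_sub, coeff_X_one, coeff_C]
    simp
  | n + 2 => by
    rw [U, coeff_add, coeff_sub, coeff_X_mul, coeff_U_self (n + 1), coeff_C_mul, coeff_C_mul,
      coeff_eq_zero_of_natDegree_lt ((natDegree_U_le (n + 1)).trans_lt (by omega)),
      coeff_eq_zero_of_natDegree_lt ((natDegree_U_le n).trans_lt (by omega))]
    ring

include hq in
/-- `L(f U_n) = 0` if `deg f < n` -/
lemma L_mul_U (f : K[X]) (n : ℕ) (hf : f.natDegree < n) : L a q (f * U a q n) = 0 := by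
  rw [f.as_sum_range_C_mul_X_pow, Finset.sum_mul, map_sum]
  apply Finset.sum_eq_zero
  intro i hi
  rw [mul_assoc, L_C_mul, L_X_pow_mul_U hq i n (by have := Finset.mem_range.1 hi; omega), mul_zero]

/-- the squared norms -/
def hn (a q : K) : ℕ → K
  | 0 => 1
  | n + 1 => -(a * q ^ n * (1 - q ^ (n + 1))) * hn a q n

include hq in
lemma L_U_sq : ∀ n : ℕ, L a q (U a q n * U a q n) = hn a q n
  | 0 => by
    rw [U, one_mul]
    have := L_X_pow a q 0
    rw [pow_zero] at this
    rw [this, g_zero hq, hn]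
  | n + 1 => by
    have h0 := L_U_sq n
    have h1 : L a q (U a q (n + 1) * U a q (n + 1)) = L a q (X * U a q n * U a q (n + 1)) := by
      rw [← sub_eq_zero, ← map_sub, ← sub_mul]
      apply L_mul_U hq
      rcases n with _ | n
      · have : U a q (0 + 1) - X * U a q 0 = - C (1 + a) := by
          rw [X_mul_U_zero, zero_add, U, U]
          ring
        rw [this, natDegree_neg, natDegree_C]
        omega
      · have : U a q (n + 1 + 1) - X * U a q (n + 1) = - (C ((1 + a) * q ^ (n + 1)) * U a q (n + 1))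
            + C (a * q ^ n * (1 - q ^ (n + 1))) * U a q n := by
          rw [X_mul_U]
          ring
        rw [this]
        refine (natDegree_add_le _ _).trans_lt (max_lt ?_ ?_)
        · rw [natDegree_neg]
          exact (natDegree_C_mul_le _ _).trans_lt ((natDegree_U_le _).trans_lt (by omega))
        · exact (natDegree_C_mul_le _ _).trans_lt ((natDegree_U_le _).trans_lt (by omega))
    have h2 : X * U a q n * U a q (n + 1) = U a q n * U a q (n + 2) +
        C ((1 + a) * q ^ (n + 1)) * (U a q n * U a q (n + 1)) -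
        C (a * q ^ n * (1 - q ^ (n + 1))) * (U a q n * U a q n) := by
      have := X_mul_U a q n
      linear_combination U a q n * this
    rw [h1, h2, map_sub, map_add, L_C_mul, L_C_mul, h0,
      L_mul_U hq _ _ ((natDegree_U_le n).trans_lt (by omega)),
      L_mul_U hq _ _ ((natDegree_U_le n).trans_lt (by omega)), hn]
    ring

include hq in
lemma L_U_U (m n : ℕ) : L a q (U a q m * U a q n) = if m = n then hn a q n else 0 := by
  split_ifs with h
  · rw [h, L_U_sq hq]
  · rcases Nat.lt_or_gt_of_ne h with h1 | h1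
    · exact L_mul_U hq _ _ ((natDegree_U_le m).trans_lt h1)
    · rw [mul_comm]
      exact L_mul_U hq _ _ ((natDegree_U_le n).trans_lt h1)

/-- the skew form `⟨f, h⟩ = L(w (f D h - h D f))` -/
noncomputable def skewForm (a q : K) (w f h : K[X]) : K := L a q (w * (f * D q h - h * D q f))

lemma skewForm_X (i j s : ℕ) (h : 0 < s ∨ 0 < i + j) :
    skewForm a q (X ^ s) (X ^ i) (X ^ j) = (q ^ i - q ^ j) * g a q (s + i + j - 1) := by
  unfold skewForm
  have h1 : ∀ r : ℕ, D q (X ^ r : K[X]) = C (1 - q ^ r) * X ^ (r - 1) := by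
    intro r
    rw [X_pow_eq_monomial, D_monomial, X_pow_eq_monomial, smul_eq_C_mul]
  rw [h1, h1]
  have h2 : (X : K[X]) ^ s * (X ^ i * (C (1 - q ^ j) * X ^ (j - 1)) -
      X ^ j * (C (1 - q ^ i) * X ^ (i - 1))) =
      C (1 - q ^ j) * X ^ (s + i + (j - 1)) - C (1 - q ^ i) * X ^ (s + j + (i - 1)) := by
    simp only [pow_add]
    ring
  rw [h2, map_sub, L_C_mul, L_C_mul, L_X_pow, L_X_pow]
  rcases i with _ | i
  · rcases j with _ | j
    · simp
    · simp only [pow_zero, sub_self, zero_mul, sub_zero, add_zero, Nat.add_sub_cancel]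
      congr 2
  · rcases j with _ | j
    · simp only [pow_zero, sub_self, zero_mul, zero_sub, add_zero, Nat.add_sub_cancel]
      rw [show s + (i + 1) - 1 = s + i by omega]
      ring
    · rw [show s + (i + 1) + (j + 1 - 1) = s + (i + 1) + (j + 1) - 1 by omega,
        show s + (j + 1) + (i + 1 - 1) = s + (i + 1) + (j + 1) - 1 by omega]
      ring

end form

end Pool.Agent.N337.Asc
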