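import Pool.Agent.Helper929.Pfaffian

/-!
# The Pfaffian as a sum over permutations
-/

set_option autoImplicit false

namespace Pool.Agent.N337

open Equiv Finset Pool.Agent.Helper929

section

variable {R : Type*} [CommRing R]

/-- the index `2k` -/
def ev {n : ℕ} (k : Fin n) : Fin (2 * n) := ⟨2 * k, by omega⟩

/-- the index `2k + 1` -/
def od {n : ℕ} (k : Fin n) : Fin (2 * n) := ⟨2 * k + 1, by omega⟩

/-- one term -/
def pfTerm {n : ℕ} (A : Matrix (Fin (2 * n)) (Fin (2 * n)) R) (σ : Perm (Fin (2 * n))) : R :=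
  ((Perm.sign σ : ℤ) : R) * ∏ k : Fin n, A (σ (ev k)) (σ (od k))

/-- `2^n n!` times the Pfaffian -/
def pfSum (n : ℕ) (A : Matrix (Fin (2 * n)) (Fin (2 * n)) R) : R :=
  ∑ σ : Perm (Fin (2 * n)), pfTerm A σ

lemma ev_ne_od {n : ℕ} (k l : Fin n) : ev k ≠ od l := by
  intro h
  have := congrArg Fin.val h
  simp only [ev, od] at this
  omega

lemma ev_inj {n : ℕ} {k l : Fin n} (h : ev k = ev l) : k = l := by
  have := congrArg Fin.val h
  simp only [ev] at this
  apply Fin.ext
  omega

lemma od_inj {n : ℕ} {k l : Fin n} (h : od k = od l) : k = l := by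
  have := congrArg Fin.val h
  simp only [od] at this
  apply Fin.ext
  omega

lemma pfTerm_swap_pair {n : ℕ} (A : Matrix (Fin (2 * n)) (Fin (2 * n)) R)
    (hA : ∀ i j, A i j = - A j i) (σ : Perm (Fin (2 * n))) (k : Fin n) :
    pfTerm A (σ * swap (ev k) (od k)) = pfTerm A σ := by
  unfold pfTerm
  rw [Perm.sign_mul, Perm.sign_swap (ev_ne_od k k)]
  have h1 : ∏ j : Fin n, A ((σ * swap (ev k) (od k)) (ev j)) ((σ * swap (ev k) (od k)) (od j)) =
      - ∏ j : Fin n, A (σ (ev j)) (σ (od j)) := by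
    rw [← Finset.mul_prod_erase univ _ (mem_univ k), ← Finset.mul_prod_erase univ
      (fun j => A (σ (ev j)) (σ (od j))) (mem_univ k)]
    rw [← neg_mul]
    congr 1
    · simp only [Perm.mul_apply, swap_apply_left, swap_apply_right]
      rw [hA]
    · apply Finset.prod_congr rfl
      intro j hj
      have hjk := (Finset.mem_erase.1 hj).1
      have e1 : swap (ev k) (od k) (ev j) = ev j :=
        swap_apply_of_ne_of_ne (fun h => hjk (ev_inj h)) (ev_ne_od _ _)
      have e2 : swap (ev k) (od k) (od j) = od j :=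
        swap_apply_of_ne_of_ne (fun h => (ev_ne_od k j) h.symm) (fun h => hjk (od_inj h))
      simp only [Perm.mul_apply, e1, e2]
  rw [h1]
  push_cast
  ring

lemma pfTerm_swap_blocks {n : ℕ} (A : Matrix (Fin (2 * n)) (Fin (2 * n)) R)
    (σ : Perm (Fin (2 * n))) (k l : Fin n) (hkl : k ≠ l) :
    pfTerm A (σ * (swap (ev k) (ev l) * swap (od k) (od l))) = pfTerm A σ := by
  unfold pfTerm
  have hs : Perm.sign (swap (ev k) (ev l) * swap (od k) (od l)) = 1 := by
    rw [Perm.sign_mul, Perm.sign_swap (fun h => hkl (ev_inj h)),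
      Perm.sign_swap (fun h => hkl (od_inj h))]
    simp
  rw [Perm.sign_mul, hs, mul_one]
  congr 1
  have e1 : ∀ j : Fin n, (swap (ev k) (ev l) * swap (od k) (od l)) (ev j) = ev (swap k l j) := by
    intro j
    rw [Perm.mul_apply, swap_apply_of_ne_of_ne (ev_ne_od _ _) (ev_ne_od _ _)]
    rcases eq_or_ne j k with rfl | h1
    · simp
    · rcases eq_or_ne j l with rfl | h2
      · simp
      · rw [swap_apply_of_ne_of_ne (fun h => h1 (ev_inj h)) (fun h => h2 (ev_inj h)),
          swap_apply_of_ne_of_ne h1 h2]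
  have e2 : ∀ j : Fin n, (swap (ev k) (ev l) * swap (od k) (od l)) (od j) = od (swap k l j) := by
    intro j
    rw [Perm.mul_apply]
    rcases eq_or_ne j k with rfl | h1
    · simp only [swap_apply_left]
      exact swap_apply_of_ne_of_ne (ev_ne_od _ _).symm (ev_ne_od _ _).symm
    · rcases eq_or_ne j l with rfl | h2
      · simp only [swap_apply_right]
        exact swap_apply_of_ne_of_ne (ev_ne_od _ _).symm (ev_ne_od _ _).symm
      · rw [swap_apply_of_ne_of_ne (fun h => h1 (od_inj h)) (fun h => h2 (od_inj h)),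
          swap_apply_of_ne_of_ne h1 h2]
        exact swap_apply_of_ne_of_ne (ev_ne_od _ _).symm (ev_ne_od _ _).symm
  calc ∏ j : Fin n, A ((σ * (swap (ev k) (ev l) * swap (od k) (od l))) (ev j))
        ((σ * (swap (ev k) (ev l) * swap (od k) (od l))) (od j))
      = ∏ j : Fin n, A (σ (ev (swap k l j))) (σ (od (swap k l j))) := by
        apply Finset.prod_congr rfl
        intro j _
        have f1 : (σ * (swap (ev k) (ev l) * swap (od k) (od l))) (ev j) = σ (ev (swap k l j)) :=
          congrArg σ (e1 j)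
        have f2 : (σ * (swap (ev k) (ev l) * swap (od k) (od l))) (od j) = σ (od (swap k l j)) :=
          congrArg σ (e2 j)
        simp only [f1, f2]
    _ = ∏ j : Fin n, A (σ (ev j)) (σ (od j)) :=
        Equiv.prod_comp (swap k l) (fun j => A (σ (ev j)) (σ (od j)))

/-- the terms with `σ m = c` -/
def part {n : ℕ} (A : Matrix (Fin (2 * n)) (Fin (2 * n)) R) (c m : Fin (2 * n)) : R :=
  ∑ σ : Perm (Fin (2 * n)), if σ m = c then pfTerm A σ else 0

lemma part_eq {n : ℕ} (A : Matrix (Fin (2 * n)) (Fin (2 * n)) R) (c m m' : Fin (2 * n))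
    (ρ : Perm (Fin (2 * n))) (hρ : ρ m = m') (h : ∀ σ, pfTerm A (σ * ρ) = pfTerm A σ) :
    part A c m = part A c m' := by
  unfold part
  rw [← Equiv.sum_comp (Equiv.mulRight ρ)]
  apply Finset.sum_congr rfl
  intro σ _
  simp only [Equiv.coe_mulRight, Perm.mul_apply, hρ, h]

lemma pfSum_eq_part {n : ℕ} (A : Matrix (Fin (2 * (n + 1))) (Fin (2 * (n + 1))) R)
    (hA : ∀ i j, A i j = - A j i) (c : Fin (2 * (n + 1))) :
    pfSum (n + 1) A = 2 * (n + 1 : ℕ) * part A c (ev 0) := by
  have h0 : pfSum (n + 1) A = ∑ m : Fin (2 * (n + 1)), part A c m := by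
    unfold part
    rw [Finset.sum_comm]
    unfold pfSum
    apply Finset.sum_congr rfl
    intro σ _
    rw [Finset.sum_eq_single (σ.symm c)]
    · simp
    · intro m _ hm
      rw [if_neg]
      rintro rfl
      simp at hm
    · intro h
      exact absurd (mem_univ _) h
  have h1 : ∀ k : Fin (n + 1), part A c (ev k) = part A c (ev 0) := by
    intro k
    rcases eq_or_ne k 0 with rfl | hk
    · rfl
    · refine part_eq A c _ _ (swap (ev k) (ev 0) * swap (od k) (od 0)) ?_ ?_
      · rw [Perm.mul_apply, swap_apply_of_ne_of_ne (ev_ne_od _ _) (ev_ne_od _ _),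
          swap_apply_left]
      · intro σ
        exact pfTerm_swap_blocks A σ k 0 hk
  have h2 : ∀ k : Fin (n + 1), part A c (od k) = part A c (ev k) := by
    intro k
    refine part_eq A c _ _ (swap (ev k) (od k)) (swap_apply_right _ _) ?_
    intro σ
    exact pfTerm_swap_pair A hA σ k
  have h3 : ∀ m : Fin (2 * (n + 1)), part A c m = part A c (ev 0) := by
    intro m
    have hm := m.2
    rcases Nat.even_or_odd' (m : ℕ) with ⟨b, hb | hb⟩
    · have : m = ev ⟨b, by omega⟩ := Fin.ext hb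
      rw [this, h1]
    · have : m = od ⟨b, by omega⟩ := Fin.ext hb
      rw [this, h2, h1]
  rw [h0, Finset.sum_congr rfl (fun m _ => h3 m), Finset.sum_const, Finset.card_univ,
    Fintype.card_fin, nsmul_eq_mul]
  push_cast
  ring

lemma swap_succ {n : ℕ} (j : Fin (n + 1)) :
    ∃ c : Perm (Fin n), (∀ x, swap 0 j x.succ = j.succAbove (c x)) ∧
      (if j = 0 then 1 else -1 : ℤˣ) = (-1) ^ (j : ℕ) * Perm.sign c := by
  rcases Fin.eq_zero_or_eq_succ j with rfl | ⟨i, rfl⟩
  · refine ⟨1, fun x => ?_, by simp⟩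
    simp
  · refine ⟨i.cycleRange, fun x => (Fin.succAbove_cycleRange i x).symm, ?_⟩
    rw [Fin.sign_cycleRange, if_neg (Fin.succ_ne_zero i), Fin.val_succ, ← pow_add]
    rw [show (i : ℕ) + 1 + i = 2 * i + 1 by ring, pow_succ, pow_mul]
    simp

/-- Expansion along the first row. -/
theorem pfSum_succ (n : ℕ) (A : Matrix (Fin (2 * (n + 1))) (Fin (2 * (n + 1))) R)
    (hA : ∀ i j, A i j = - A j i) :
    pfSum (n + 1) A = 2 * (n + 1 : ℕ) * ∑ j : Fin (2 * n + 1), (-1) ^ (j : ℕ) * A (0 : Fin (2 * n + 1 + 1)) j.succ *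
      pfSum n (A.submatrix (fun k => ((j.succAbove k).succ : Fin (2 * n + 1 + 1)))
        (fun k => ((j.succAbove k).succ : Fin (2 * n + 1 + 1)))) := by
  rw [pfSum_eq_part A hA (0 : Fin (2 * n + 1 + 1))]
  congr 1
  unfold part
  have h1 : ∑ σ : Perm (Fin (2 * (n + 1))), (if σ (ev 0) = (0 : Fin (2 * n + 1 + 1)) then pfTerm A σ else 0)
      = ∑ e : Perm (Fin (2 * n + 1)),
        pfTerm A (Perm.decomposeFin.symm ((0 : Fin (2 * n + 1 + 1)), e)) := by
    refine (Equiv.sum_comp (Perm.decomposeFin (n := 2 * n + 1)).symm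
      (fun σ : Perm (Fin (2 * n + 1 + 1)) =>
        if σ 0 = (0 : Fin (2 * n + 1 + 1)) then pfTerm (n := n + 1) A σ else 0)).symm.trans ?_
    rw [Fintype.sum_prod_type, Finset.sum_eq_single (0 : Fin (2 * n + 1 + 1))]
    · apply Finset.sum_congr rfl
      intro e _
      rw [if_pos]
      exact Perm.decomposeFin_symm_apply_zero _ _
    · intro p _ hp
      apply Finset.sum_eq_zero
      intro e _
      rw [if_neg]
      intro h
      apply hp
      rw [← h]
      exact (Perm.decomposeFin_symm_apply_zero _ _).symm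
    · intro h
      exact absurd (mem_univ _) h
  rw [h1, ← Equiv.sum_comp (Perm.decomposeFin (n := 2 * n)).symm, Fintype.sum_prod_type]
  apply Finset.sum_congr rfl
  intro j _
  obtain ⟨c, hc1, hc2⟩ := swap_succ j
  unfold pfSum
  rw [Finset.mul_sum]
  refine ((Equiv.sum_comp (Equiv.mulLeft c) _).symm.trans ?_).symm
  apply Finset.sum_congr rfl
  intro e _
  symm
  unfold pfTerm
  rw [Perm.decomposeFin.symm_sign, Perm.decomposeFin.symm_sign, if_pos rfl, hc2, Fin.prod_univ_succ]
  have a1 : (Perm.decomposeFin.symm ((0 : Fin (2 * n + 1 + 1)), Perm.decomposeFin.symm (j, e)))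
      (ev (0 : Fin (n + 1))) = (0 : Fin (2 * n + 1 + 1)) := Perm.decomposeFin_symm_apply_zero _ _
  have a2 : (Perm.decomposeFin.symm ((0 : Fin (2 * n + 1 + 1)), Perm.decomposeFin.symm (j, e)))
      (od (0 : Fin (n + 1))) = j.succ := by
    have : (od (0 : Fin (n + 1)) : Fin (2 * n + 1 + 1)) = (0 : Fin (2 * n + 1)).succ := rfl
    rw [this, Perm.decomposeFin_symm_apply_succ, Perm.decomposeFin_symm_apply_zero]
    simp
  have a3 : ∀ x : Fin (2 * n), (Perm.decomposeFin.symm ((0 : Fin (2 * n + 1 + 1)),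
      Perm.decomposeFin.symm (j, e))) x.succ.succ = (j.succAbove (c (e x))).succ := by
    intro x
    rw [Perm.decomposeFin_symm_apply_succ, Perm.decomposeFin_symm_apply_succ, hc1]
    simp
  have a4 : ∀ k : Fin n, (ev k.succ : Fin (2 * n + 1 + 1)) = (ev k).succ.succ := fun k => rfl
  have a5 : ∀ k : Fin n, (od k.succ : Fin (2 * n + 1 + 1)) = (od k).succ.succ := fun k => rfl
  rw [a1, a2]
  simp only [Equiv.coe_mulLeft, Perm.mul_apply, Perm.sign_mul, Matrix.submatrix_apply]
  have a6 : ∏ i : Fin n, A ((Perm.decomposeFin.symm ((0 : Fin (2 * n + 1 + 1)),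
      Perm.decomposeFin.symm (j, e))) (ev i.succ)) ((Perm.decomposeFin.symm
        ((0 : Fin (2 * n + 1 + 1)), Perm.decomposeFin.symm (j, e))) (od i.succ)) =
      ∏ x : Fin n, A (j.succAbove (c (e (ev x)))).succ (j.succAbove (c (e (od x)))).succ := by
    apply Finset.prod_congr rfl
    intro k _
    rw [← a3, ← a3, ← a4, ← a5]
  rw [a6]
  push_cast
  ring

end

/-- The permutation sum is `2^n n!` times the recursively defined Pfaffian. -/
theorem pfSum_eq {R : Type*} [CommRing R] : ∀ (n : ℕ) (A : Matrix (Fin (2 * n)) (Fin (2 * n)) R)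
    (_ : ∀ i j, A i j = - A j i), pfSum n A = 2 ^ n * (n.factorial : ℕ) * pf (2 * n) A
  | 0, A, _ => by
    simp [pfSum, pfTerm, pf]
  | n + 1, A, hA => by
    rw [pfSum_succ n A hA]
    change _ = 2 ^ (n + 1) * ((n + 1).factorial : R) * pf (2 * n + 2) A
    rw [pf, Nat.factorial_succ, Finset.mul_sum, Finset.mul_sum]
    apply Finset.sum_congr rfl
    intro j _
    have h := pfSum_eq n (Matrix.submatrix (A : Matrix (Fin (2 * n + 1 + 1)) (Fin (2 * n + 1 + 1)) R)
      (fun k => (j.succAbove k).succ) (fun k => (j.succAbove k).succ))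
      (fun i k => hA (j.succAbove i).succ (j.succAbove k).succ)
    rw [h]
    push_cast
    ring

end Pool.Agent.N337
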