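import Pool.Agent.N337.AscDefs
import Pool.Agent.N337.PfSum

/-!
# Skew forms attached to the Al-Salam–Carlitz functional
-/

set_option autoImplicit false

namespace Pool.Agent.N337.Asc

open Finset Polynomial Pool.Agent.Helper929

section band

variable {R : Type*} [CommRing R]

/-- a banded skew matrix -/
def band (b c : ℕ → R) (i j : ℕ) : R :=
  if j = i + 1 then b i else if j = i + 2 then c i else
    if i = j + 1 then - b j else if i = j + 2 then - c j else 0

lemma band_skew (b c : ℕ → R) (i j : ℕ) : band b c i j = - band b c j i := by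
  unfold band
  split_ifs <;> first | omega | simp

lemma band_one (b c : ℕ → R) (i : ℕ) : band b c i (i + 1) = b i := by
  simp [band]

lemma band_two (b c : ℕ → R) (i : ℕ) : band b c i (i + 2) = c i := by
  simp [band]

lemma band_far (b c : ℕ → R) (i j : ℕ) (h : i + 3 ≤ j) : band b c i j = 0 := by
  unfold band
  rw [if_neg (by omega), if_neg (by omega), if_neg (by omega), if_neg (by omega)]

/-- the Pfaffian of the band matrix, rows and columns from `s` on -/
def Fb (b c : ℕ → R) (N s : ℕ) : R :=
  pf N (Matrix.of fun i j : Fin N => band b c (s + i) (s + j))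

lemma Fb_zero (b c : ℕ → R) (s : ℕ) : Fb b c 0 s = 1 := rfl

lemma Fb_two (b c : ℕ → R) (s : ℕ) : Fb b c 2 s = b s := by
  unfold Fb
  rw [pf, Fin.sum_univ_one]
  simp [pf, band_one]

lemma pf_congr {N : ℕ} {A B : Matrix (Fin N) (Fin N) R} (h : ∀ i j, A i j = B i j) :
    pf N A = pf N B := by
  have : A = B := by
    ext i j
    exact h i j
  rw [this]

lemma Fb_step (b c : ℕ → R) (N s : ℕ) :
    Fb b c (N + 4) s = b s * Fb b c (N + 2) (s + 2) - c s * c (s + 1) * Fb b c N (s + 4) := by
  unfold Fb
  rw [pf, Fin.sum_univ_succ, Fin.sum_univ_succ]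
  have h0 : ∑ i : Fin (N + 1), (-1 : R) ^ ((i.succ.succ : Fin (N + 2 + 1)) : ℕ) *
      (Matrix.of fun i j : Fin (N + 4) => band b c (s + i) (s + j)) 0
        (i.succ.succ : Fin (N + 2 + 1)).succ *
      pf (N + 2) ((Matrix.of fun i j : Fin (N + 4) => band b c (s + i) (s + j)).submatrix
        (fun k => ((i.succ.succ : Fin (N + 2 + 1)).succAbove k).succ)
        (fun k => ((i.succ.succ : Fin (N + 2 + 1)).succAbove k).succ)) = 0 := by
    apply Finset.sum_eq_zero
    intro i _
    have : (Matrix.of fun i j : Fin (N + 4) => band b c (s + i) (s + j)) 0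
        (i.succ.succ : Fin (N + 2 + 1)).succ = 0 := by
      rw [Matrix.of_apply]
      apply band_far
      simp only [Fin.val_succ, Fin.val_zero]
      omega
    rw [this]
    ring
  rw [h0]
  have h1 : pf (N + 2) ((Matrix.of fun i j : Fin (N + 4) => band b c (s + i) (s + j)).submatrix
        (fun k => ((0 : Fin (N + 2 + 1)).succAbove k).succ)
        (fun k => ((0 : Fin (N + 2 + 1)).succAbove k).succ)) =
      pf (N + 2) (Matrix.of fun i j : Fin (N + 2) => band b c (s + 2 + i) (s + 2 + j)) := by
    apply pf_congr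
    intro i j
    simp only [Matrix.submatrix_apply, Matrix.of_apply, Fin.zero_succAbove, Fin.val_succ]
    congr 1 <;> ring
  have h2 : pf (N + 2) ((Matrix.of fun i j : Fin (N + 4) => band b c (s + i) (s + j)).submatrix
        (fun k => ((Fin.succ 0 : Fin (N + 2 + 1)).succAbove k).succ)
        (fun k => ((Fin.succ 0 : Fin (N + 2 + 1)).succAbove k).succ)) =
      c (s + 1) * pf N (Matrix.of fun i j : Fin N => band b c (s + 4 + i) (s + 4 + j)) := by
    rw [pf, Fin.sum_univ_succ]
    have h3 : ∀ i : Fin N, (-1 : R) ^ (i.succ : ℕ) *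
        ((Matrix.of fun i j : Fin (N + 4) => band b c (s + i) (s + j)).submatrix
        (fun k => ((Fin.succ 0 : Fin (N + 2 + 1)).succAbove k).succ)
        (fun k => ((Fin.succ 0 : Fin (N + 2 + 1)).succAbove k).succ)) 0 i.succ.succ *
        pf N (((Matrix.of fun i j : Fin (N + 4) => band b c (s + i) (s + j)).submatrix
        (fun k => ((Fin.succ 0 : Fin (N + 2 + 1)).succAbove k).succ)
        (fun k => ((Fin.succ 0 : Fin (N + 2 + 1)).succAbove k).succ)).submatrix
          (fun k => (i.succ.succAbove k).succ) (fun k => (i.succ.succAbove k).succ)) = 0 := by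
      intro i
      have : ((Matrix.of fun i j : Fin (N + 4) => band b c (s + i) (s + j)).submatrix
        (fun k => ((Fin.succ 0 : Fin (N + 2 + 1)).succAbove k).succ)
        (fun k => ((Fin.succ 0 : Fin (N + 2 + 1)).succAbove k).succ)) 0 i.succ.succ = 0 := by
        rw [Matrix.submatrix_apply, Matrix.of_apply]
        apply band_far
        rw [Fin.succ_succAbove_zero, Fin.succ_succAbove_succ, Fin.zero_succAbove]
        simp only [Fin.val_succ, Fin.val_zero]
        omega
      rw [this]
      ring
    rw [Finset.sum_eq_zero (fun i _ => h3 i)]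
    have h4 : ((Matrix.of fun i j : Fin (N + 4) => band b c (s + i) (s + j)).submatrix
        (fun k => ((Fin.succ 0 : Fin (N + 2 + 1)).succAbove k).succ)
        (fun k => ((Fin.succ 0 : Fin (N + 2 + 1)).succAbove k).succ)) 0 (Fin.succ 0) =
        c (s + 1) := by
      rw [Matrix.submatrix_apply, Matrix.of_apply, Fin.succ_succAbove_zero,
        Fin.succ_succAbove_succ, Fin.zero_succAbove]
      simp only [Fin.val_succ, Fin.val_zero]
      exact band_two b c (s + 1)
    rw [h4]
    have h5 : pf N (((Matrix.of fun i j : Fin (N + 4) => band b c (s + i) (s + j)).submatrix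
        (fun k => ((Fin.succ 0 : Fin (N + 2 + 1)).succAbove k).succ)
        (fun k => ((Fin.succ 0 : Fin (N + 2 + 1)).succAbove k).succ)).submatrix
          (fun k => ((0 : Fin (N + 1)).succAbove k).succ)
          (fun k => ((0 : Fin (N + 1)).succAbove k).succ)) =
        pf N (Matrix.of fun i j : Fin N => band b c (s + 4 + i) (s + 4 + j)) := by
      apply pf_congr
      intro i j
      simp only [Matrix.submatrix_apply, Matrix.of_apply, Fin.zero_succAbove,
        Fin.succ_succAbove_succ, Fin.val_succ]
      congr 1 <;> ring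
    rw [h5]
    simp
  rw [h1, h2]
  have h6 : (Matrix.of fun i j : Fin (N + 4) => band b c (s + i) (s + j)) 0
      (Fin.succ (0 : Fin (N + 2 + 1))) = b s := by
    rw [Matrix.of_apply]
    exact band_one b c s
  have h7 : (Matrix.of fun i j : Fin (N + 4) => band b c (s + i) (s + j)) 0
      (Fin.succ (Fin.succ 0 : Fin (N + 2 + 1))) = c s := by
    rw [Matrix.of_apply]
    exact band_two b c s
  rw [h6, h7]
  simp only [Fin.val_zero, Fin.val_succ]
  ring

/-- the right recursion for the band Pfaffians -/
lemma Fb_right (b c : ℕ → R) : ∀ m s : ℕ, Fb b c (2 * (m + 2)) s =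
    b (s + 2 * m + 2) * Fb b c (2 * (m + 1)) s -
      c (s + 2 * m) * c (s + 2 * m + 1) * Fb b c (2 * m) s
  | 0, s => by
    have h := Fb_step b c 0 s
    simp only [zero_add, Fb_zero, Fb_two] at h
    simp only [mul_zero, zero_add, mul_one, Fb_zero, Fb_two, add_zero]
    rw [show 2 * 2 = 4 by rfl, h]
    ring
  | 1, s => by
    have h := Fb_step b c 2 s
    have h' := Fb_step b c 0 (s + 2)
    have h'' := Fb_step b c 0 s
    simp only [zero_add, Fb_zero, Fb_two] at h h' h''
    simp only [mul_one, Fb_two]
    rw [show 2 * (1 + 2) = 2 + 4 by rfl, show 2 * (1 + 1) = 4 by rfl, h, h'', show 2 + 2 = 4 by rfl,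
      h']
    simp only [add_assoc]
    norm_num
    ring
  | m + 2, s => by
    have h := Fb_step b c (2 * (m + 2)) s
    have h1 := Fb_right b c (m + 1) (s + 2)
    have h2 := Fb_right b c m (s + 4)
    have h3 := Fb_step b c (2 * (m + 1)) s
    have h4 := Fb_step b c (2 * m) s
    have e1 : 2 * (m + 2 + 2) = 2 * (m + 2) + 4 := by ring
    have e2 : 2 * (m + 2) + 2 = 2 * (m + 1 + 2) := by ring
    have e3 : 2 * (m + 2 + 1) = 2 * (m + 1) + 4 := by ring
    have e4 : 2 * (m + 1) + 2 = 2 * (m + 2) := by ring
    have e5 : 2 * m + 2 = 2 * (m + 1) := by ring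
    have e6 : 2 * m + 4 = 2 * (m + 2) := by ring
    have e7 : 2 * (m + 1 + 1) = 2 * (m + 2) := by ring
    rw [e1, h, e2, h1, h2, e3, h3, e4]
    rw [e6, e5] at h4
    rw [h4, e7]
    have f1 : s + 2 + 2 * (m + 1) + 2 = s + 2 * (m + 2) + 2 := by ring
    have f2 : s + 4 + 2 * m + 2 = s + 2 * (m + 2) + 2 := by ring
    have f3 : s + 2 + 2 * (m + 1) = s + 2 * (m + 2) := by ring
    have f4 : s + 4 + 2 * m = s + 2 * (m + 2) := by ring
    rw [f1, f2, f3, f4]
    ring

end band

end Pool.Agent.N337.Asc
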