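import Mathlib

/-!
# A branch group with an automorphism that is not induced by a tree automorphism

Binary tree `W = List Bool`.  `L` = all tree automorphisms acting on the second level by
translations of `(Z/2)^2`.  Exchanging the first two letters induces an automorphism of `L`.
-/

namespace Pool.Agent.N337.Br

abbrev W := List Bool

theorem aii (g : Equiv.Perm W) (v : W) : g (g⁻¹ v) = v := g.apply_symm_apply v

/-- membership in `L` -/
def InL (g : W → W) : Prop :=
  (∀ v w, v <+: w ↔ g v <+: g w) ∧ (∀ v, (g v).length = v.length) ∧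
    ∃ s t : Bool, ∀ x y w, ∃ w', g (x :: y :: w) = (xor x s) :: (xor y t) :: w'

theorem two_le {v : W} (h : 2 ≤ v.length) : ∃ x y w, v = x :: y :: w := by
  match v, h with
  | x :: y :: w, _ => exact ⟨x, y, w, rfl⟩

/-- the group -/
def L : Subgroup (Equiv.Perm W) where
  carrier := {g | InL g}
  mul_mem' := by
    rintro g h ⟨g1, g2, s, t, g3⟩ ⟨h1, h2, s', t', h3⟩
    refine ⟨fun v w => ?_, fun v => ?_, xor s' s, xor t' t, fun x y w => ?_⟩
    · rw [h1 v w, g1]; rfl
    · rw [Equiv.Perm.mul_apply, g2, h2]
    · obtain ⟨w1, hw1⟩ := h3 x y w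
      obtain ⟨w2, hw2⟩ := g3 (xor x s') (xor y t') w1
      exact ⟨w2, by rw [Equiv.Perm.mul_apply, hw1, hw2, Bool.xor_assoc, Bool.xor_assoc]⟩
  one_mem' := ⟨fun _ _ => Iff.rfl, fun _ => rfl, false, false, fun x y w => ⟨w, by simp⟩⟩
  inv_mem' := by
    rintro g ⟨g1, g2, s, t, g3⟩
    have hlen : ∀ v, (g⁻¹ v).length = v.length := fun v => by
      rw [← g2 (g⁻¹ v), aii]
    refine ⟨fun v w => ?_, hlen, s, t, fun x y w => ?_⟩
    · rw [g1 (g⁻¹ v) (g⁻¹ w), aii, aii]
    · obtain ⟨a, b, w', hw'⟩ := two_le (v := g⁻¹ (x :: y :: w)) (by rw [hlen]; simp)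
      obtain ⟨w2, hw2⟩ := g3 a b w'
      have h1 : g (g⁻¹ (x :: y :: w)) = x :: y :: w := aii _ _
      rw [hw', hw2] at h1
      simp only [List.cons.injEq] at h1
      refine ⟨w', ?_⟩
      rw [hw', ← h1.1, ← h1.2.1]
      simp

theorem mem_L (g : Equiv.Perm W) : g ∈ L ↔ InL g := Iff.rfl

/-- exchange of the first two letters -/
def sw : W → W
  | x :: y :: w => y :: x :: w
  | v => v

/-- the second translation component -/
def tt (g : W → W) : Bool := (g [false, false]).getD 1 false

/-- the image of `g` under the automorphism -/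
def th (g : W → W) : W → W
  | [] => []
  | [x] => [xor x (tt g)]
  | x :: y :: w => sw (g (y :: x :: w))

theorem tt_eq {g : W → W} {s t : Bool} (h : ∀ x y w, ∃ w', g (x :: y :: w) = (xor x s) :: (xor y t) :: w') :
    tt g = t := by
  obtain ⟨w', hw⟩ := h false false []
  rw [tt, hw]; simp

theorem nil_eq {g : W → W} (h : InL g) : g [] = [] := by
  have := h.2.1 []
  simpa using this

theorem one_eq {g : W → W} (h : InL g) {s t : Bool}
    (h3 : ∀ x y w, ∃ w', g (x :: y :: w) = (xor x s) :: (xor y t) :: w') (x : Bool) :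
    g [x] = [xor x s] := by
  obtain ⟨w', hw⟩ := h3 x false []
  have h1 : g [x] <+: g [x, false] := (h.1 _ _).mp (by simp)
  have h2 := h.2.1 [x]
  rw [hw] at h1
  match hg : g [x], h2 with
  | [a], _ =>
    rw [hg] at h1
    simp only [List.cons_prefix_cons] at h1
    rw [h1.1]

theorem th_mul {g h : W → W} (hg : InL g) (hh : InL h) (v : W) :
    th (g ∘ h) v = th g (th h v) := by
  obtain ⟨g1, g2, s, t, g3⟩ := hg
  obtain ⟨h1, h2, s', t', h3⟩ := hh
  have h4 : ∀ x y w, ∃ w', (g ∘ h) (x :: y :: w) = (xor x (xor s' s)) :: (xor y (xor t' t)) :: w' := by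
    intro x y w
    obtain ⟨w1, hw1⟩ := h3 x y w
    obtain ⟨w2, hw2⟩ := g3 (xor x s') (xor y t') w1
    exact ⟨w2, by rw [Function.comp_apply, hw1, hw2, Bool.xor_assoc, Bool.xor_assoc]⟩
  match v with
  | [] => rfl
  | [x] =>
    rw [th, th, th, tt_eq h4, tt_eq g3, tt_eq h3, Bool.xor_assoc]
  | x :: y :: w =>
    obtain ⟨w1, hw1⟩ := h3 y x w
    rw [th, th, Function.comp_apply, hw1]
    rfl

theorem th_one (v : W) : th id v = v := by
  match v with
  | [] => rfl
  | [x] => simp [th, tt]
  | x :: y :: w => rfl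

theorem th_InL {g : W → W} (hg : InL g) : InL (th g) := by
  have hg' := hg
  obtain ⟨g1, g2, s, t, g3⟩ := hg
  have hlen : ∀ v, (th g v).length = v.length := by
    intro v
    match v with
    | [] => rfl
    | [x] => rfl
    | x :: y :: w =>
      obtain ⟨w1, hw1⟩ := g3 y x w
      have := g2 (y :: x :: w)
      rw [th, hw1, sw]
      rw [hw1] at this
      simpa using this
  have h2 : ∀ x y w, ∃ w', g (y :: x :: w) = (xor y s) :: (xor x t) :: w' ∧
      th g (x :: y :: w) = (xor x t) :: (xor y s) :: w' := by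
    intro x y w
    obtain ⟨w1, hw1⟩ := g3 y x w
    exact ⟨w1, hw1, by rw [th, hw1, sw]⟩
  refine ⟨fun v w => ?_, hlen, t, s, fun x y w => ?_⟩
  · match v, w with
    | [], w => simp [th]
    | [x], [] => simp [th]
    | [x], [z] => simp [th, List.cons_prefix_cons]
    | [x], z :: y :: w =>
      obtain ⟨w1, _, hw1⟩ := h2 z y w
      rw [hw1, th, tt_eq g3]
      simp [List.cons_prefix_cons]
    | x :: y :: v, [] => 
      obtain ⟨w1, _, hw1⟩ := h2 x y v
      rw [hw1, th]; simp
    | x :: y :: v, [z] => 
      obtain ⟨w1, _, hw1⟩ := h2 x y v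
      rw [hw1, th]; simp [List.cons_prefix_cons]
    | x :: y :: v, x' :: y' :: w =>
      obtain ⟨w1, hv1, hw1⟩ := h2 x y v
      obtain ⟨w2, hv2, hw2⟩ := h2 x' y' w
      have key := g1 (y :: x :: v) (y' :: x' :: w)
      rw [hv1, hv2] at key
      rw [hw1, hw2]
      simp only [List.cons_prefix_cons] at key ⊢
      constructor
      · rintro ⟨a, b, c⟩
        obtain ⟨a', b', c'⟩ := key.mp ⟨b, a, c⟩
        exact ⟨b', a', c'⟩
      · rintro ⟨a, b, c⟩
        obtain ⟨a', b', c'⟩ := key.mpr ⟨b, a, c⟩
        exact ⟨b', a', c'⟩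
  · obtain ⟨w1, _, hw1⟩ := h2 x y w
    exact ⟨w1, hw1⟩

theorem th_th {g : W → W} (hg : InL g) (v : W) : th (th g) v = g v := by
  have hg' := hg
  obtain ⟨g1, g2, s, t, g3⟩ := hg
  match v with
  | [] => rw [nil_eq hg']; rfl
  | [x] =>
    have h2 : tt (th g) = s := by
      obtain ⟨w1, hw1⟩ := g3 false false []
      rw [tt, th, hw1, sw]; simp
    rw [th, h2, one_eq hg' g3]
  | x :: y :: w =>
    obtain ⟨w1, hw1⟩ := g3 x y w
    rw [th, th, hw1]
    rfl

/-- `th` as a permutation -/
def thP (g : L) : Equiv.Perm W where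
  toFun := th g.1
  invFun := th (g⁻¹ : L).1
  left_inv := fun v => by
    rw [← th_mul (g⁻¹ : L).2 g.2]
    have : ((g⁻¹ : L).1 : W → W) ∘ (g.1 : W → W) = id := by
      funext v; simp
    rw [this, th_one]
  right_inv := fun v => by
    rw [← th_mul g.2 (g⁻¹ : L).2]
    have : (g.1 : W → W) ∘ ((g⁻¹ : L).1 : W → W) = id := by
      funext v; simp
    rw [this, th_one]

/-- the automorphism of `L` -/
def phi : L ≃* L where
  toFun := fun g => ⟨thP g, th_InL g.2⟩
  invFun := fun g => ⟨thP g, th_InL g.2⟩
  left_inv := fun g => by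
    apply Subtype.ext
    apply Equiv.ext
    intro v
    exact th_th g.2 v
  right_inv := fun g => by
    apply Subtype.ext
    apply Equiv.ext
    intro v
    exact th_th g.2 v
  map_mul' := fun g h => by
    apply Subtype.ext
    apply Equiv.ext
    intro v
    exact th_mul g.2 h.2 v

theorem phi_apply (g : L) (v : W) : (phi g : Equiv.Perm W) v = th g.1 v := rfl

/-! ### translations -/

/-- letterwise translation -/
def tr : (ℕ → Bool) → W → W
  | _, [] => []
  | c, x :: v => xor x (c 0) :: tr (fun i => c (i + 1)) v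

theorem tr_tr (c : ℕ → Bool) (v : W) : tr c (tr c v) = v := by
  induction v generalizing c with
  | nil => rfl
  | cons x v ih => rw [tr, tr, ih]; simp

theorem tr_len (c : ℕ → Bool) (v : W) : (tr c v).length = v.length := by
  induction v generalizing c with
  | nil => rfl
  | cons x v ih => rw [tr, List.length_cons, ih, List.length_cons]

theorem tr_pre (c : ℕ → Bool) (v w : W) : v <+: w ↔ tr c v <+: tr c w := by
  induction v generalizing c w with
  | nil => simp [tr]
  | cons x v ih =>
    cases w with
    | nil => simp [tr]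
    | cons y w =>
      rw [tr, tr, List.cons_prefix_cons, List.cons_prefix_cons, ← ih]
      simp

/-- translation as a permutation -/
def trP (c : ℕ → Bool) : Equiv.Perm W := ⟨tr c, tr c, tr_tr c, tr_tr c⟩

theorem trP_mem (c : ℕ → Bool) : trP c ∈ L :=
  ⟨tr_pre c, tr_len c, c 0, c 1, fun _ _ w => ⟨tr (fun i => c (i + 1 + 1)) w, rfl⟩⟩

theorem tr_trans (v w : W) (h : v.length = w.length) : ∃ c, tr c v = w := by
  induction v generalizing w with
  | nil =>
    cases w with
    | nil => exact ⟨fun _ => false, rfl⟩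
    | cons y w => simp at h
  | cons x v ih =>
    cases w with
    | nil => simp at h
    | cons y w =>
      obtain ⟨c, hc⟩ := ih w (by simpa using h)
      refine ⟨fun i => Nat.casesOn i (xor x y) c, ?_⟩
      rw [tr]
      congr 1
      · simp

theorem transitive (v w : W) (h : v.length = w.length) : ∃ g ∈ L, g v = w := by
  obtain ⟨c, hc⟩ := tr_trans v w h
  exact ⟨trP c, trP_mem c, hc⟩

/-! ### rigid stabilisers -/

/-- elements of `L` supported below some vertex of level `n` -/
def S (n : ℕ) : Set (Equiv.Perm W) :=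
  {g | g ∈ L ∧ ∃ u : W, u.length = n ∧ ∀ v, ¬ u <+: v → g v = v}

theorem eq_of_prefix_len {a b c : W} (h1 : a <+: c) (h2 : b <+: c) (h : a.length = b.length) :
    a = b := by
  rw [List.prefix_iff_eq_take.mp h1, List.prefix_iff_eq_take.mp h2, h]

theorem fix_le {g : W → W} (hg : InL g) {N : ℕ} (hN : ∀ v, v.length = N → g v = v) (v : W)
    (hv : v.length ≤ N) : g v = v := by
  have h1 : v <+: v ++ List.replicate (N - v.length) false := List.prefix_append _ _
  have h2 := (hg.1 _ _).mp h1
  rw [hN (v ++ List.replicate (N - v.length) false)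
    (by rw [List.length_append, List.length_replicate]; omega)] at h2
  exact eq_of_prefix_len h2 h1 (hg.2.1 v)

theorem take_fix {g : W → W} (hg : InL g) {n N : ℕ} (hnN : n ≤ N)
    (hN : ∀ v, v.length = N → g v = v) (v : W) : (g v).take n = v.take n := by
  by_cases h : v.length ≤ n
  · rw [fix_le hg hN v (h.trans hnN)]
  · push Not at h
    have h1 : v.take n <+: v := List.take_prefix _ _
    have h2 := (hg.1 _ _).mp h1
    rw [fix_le hg hN (v.take n) (by rw [List.length_take]; omega)] at h2
    apply eq_of_prefix_len (List.take_prefix _ _) h2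
    rw [List.length_take, List.length_take, hg.2.1]

open Classical in
/-- `g` on the part above `A`, identity elsewhere -/
noncomputable def pc (g : W → W) (n : ℕ) (A : Set W) (v : W) : W := if v.take n ∈ A then g v else v

theorem pc_pc {g h : W → W} {n : ℕ} {A : Set W} (hg : ∀ v, (g v).take n = v.take n)
    (hgh : ∀ v, h (g v) = v) (v : W) : pc h n A (pc g n A v) = v := by
  unfold pc
  by_cases hv : v.take n ∈ A
  · rw [if_pos hv, if_pos (by rw [hg]; exact hv), hgh]
  · rw [if_neg hv, if_neg hv]

theorem pc_fwd {g : W → W} (hg : InL g) {n N : ℕ} (hnN : n ≤ N)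
    (hN : ∀ v, v.length = N → g v = v) (A : Set W) (v w : W) (hvw : v <+: w) :
    pc g n A v <+: pc g n A w := by
  by_cases h : v.length ≤ n
  · have e1 : pc g n A v = v := by
      unfold pc
      rw [fix_le hg hN v (h.trans hnN)]
      simp
    rw [e1]
    unfold pc
    split_ifs
    · have := (hg.1 _ _).mp hvw
      rwa [fix_le hg hN v (h.trans hnN)] at this
    · exact hvw
  · push Not at h
    have e1 : v.take n = w.take n := by
      apply eq_of_prefix_len (c := w) ((List.take_prefix _ _).trans hvw) (List.take_prefix _ _)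
      have := hvw.length_le
      rw [List.length_take, List.length_take]; omega
    unfold pc
    rw [e1]
    split_ifs
    · exact (hg.1 _ _).mp hvw
    · exact hvw

/-- the piece as a permutation -/
noncomputable def pcP (g : Equiv.Perm W) (hg : g ∈ L) (n N : ℕ) (hnN : n ≤ N)
    (hN : ∀ v, v.length = N → g v = v) (A : Set W) : Equiv.Perm W where
  toFun := pc g n A
  invFun := pc (g⁻¹ : Equiv.Perm W) n A
  left_inv := pc_pc (take_fix hg hnN hN) (fun v => by simp)
  right_inv := pc_pc (take_fix (L.inv_mem hg) hnN (fun v hv => by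
    rw [Equiv.Perm.inv_eq_iff_eq, hN v hv])) (fun v => by simp)

theorem pcP_mem (g : Equiv.Perm W) (hg : g ∈ L) (n N : ℕ) (hnN : n ≤ N) (h2 : 2 ≤ N)
    (hN : ∀ v, v.length = N → g v = v) (A : Set W) : pcP g hg n N hnN hN A ∈ L := by
  have hN' : ∀ v, v.length = N → (g⁻¹ : Equiv.Perm W) v = v := fun v hv => by
    rw [Equiv.Perm.inv_eq_iff_eq, hN v hv]
  refine ⟨fun v w => ⟨pc_fwd hg hnN hN A v w, fun h => ?_⟩, fun v => ?_, false, false, fun x y w => ?_⟩
  · have := pc_fwd (L.inv_mem hg) hnN hN' A _ _ h
    have e : ∀ v, pc (g⁻¹ : Equiv.Perm W) n A (pcP g hg n N hnN hN A v) = v :=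
      (pcP g hg n N hnN hN A).left_inv
    rwa [e, e] at this
  · show (pc g n A v).length = v.length
    unfold pc
    split_ifs
    · exact hg.2.1 v
    · rfl
  · show ∃ w', pc g n A (x :: y :: w) = _
    unfold pc
    split_ifs
    · have h1 : [x, y] <+: x :: y :: w := by simp
      have h3 := (hg.1 _ _).mp h1
      rw [fix_le hg hN [x, y] (by simpa using h2)] at h3
      obtain ⟨w', hw'⟩ := h3
      exact ⟨w', by rw [← hw']; simp⟩
    · exact ⟨w, by simp⟩

theorem closure_pc (g : Equiv.Perm W) (hg : g ∈ L) (n N : ℕ) (hnN : n ≤ N) (h2 : 2 ≤ N)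
    (hN : ∀ v, v.length = N → g v = v) (A : Finset W) (hA : ∀ u ∈ A, u.length = n) :
    pcP g hg n N hnN hN (A : Set W) ∈ Subgroup.closure (S n) := by
  classical
  induction A using Finset.induction_on with
  | empty =>
    have : pcP g hg n N hnN hN ((∅ : Finset W) : Set W) = 1 := by
      apply Equiv.ext
      intro v
      show pc g n _ v = v
      simp [pc]
    rw [this]
    exact one_mem _
  | insert u A hu ih =>
    have e : pcP g hg n N hnN hN ((insert u A : Finset W) : Set W)
        = pcP g hg n N hnN hN {u} * pcP g hg n N hnN hN (A : Set W) := by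
      apply Equiv.ext
      intro v
      show pc g n _ v = pc g n _ (pc g n _ v)
      have ht := take_fix hg hnN hN v
      unfold pc
      by_cases h1 : v.take n = u
      · have h3 : v.take n ∉ (A : Set W) := by rw [h1]; simpa using hu
        rw [if_pos (by rw [h1]; simp), if_neg h3, if_pos (by rw [h1]; simp)]
      · by_cases h3 : v.take n ∈ (A : Set W)
        · rw [if_pos (by rw [Finset.coe_insert]; exact Set.mem_insert_of_mem _ h3), if_pos h3,
            if_neg (by rw [ht]; simpa using h1)]
        · rw [if_neg (by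
            rw [Finset.coe_insert, Set.mem_insert_iff]
            rintro (h | h)
            · exact h1 h
            · exact h3 h), if_neg h3, if_neg (by simpa using h1)]
    rw [e]
    refine mul_mem (Subgroup.subset_closure ⟨pcP_mem g hg n N hnN h2 hN _, u,
      hA u (Finset.mem_insert_self _ _), fun v hv => ?_⟩)
      (ih fun w hw => hA w (Finset.mem_insert_of_mem hw))
    show pc g n {u} v = v
    unfold pc
    rw [if_neg]
    intro h
    rw [Set.mem_singleton_iff] at h
    exact hv (h ▸ List.take_prefix _ _)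

theorem fix_mem_closure (g : Equiv.Perm W) (hg : g ∈ L) (n N : ℕ) (hnN : n ≤ N) (h2 : 2 ≤ N)
    (hN : ∀ v, v.length = N → g v = v) : g ∈ Subgroup.closure (S n) := by
  have hfin : {l : W | l.length = n}.Finite := List.finite_length_eq Bool n
  have h1 := closure_pc g hg n N hnN h2 hN hfin.toFinset (by simp)
  have e : pcP g hg n N hnN hN (hfin.toFinset : Set W) = g := by
    apply Equiv.ext
    intro v
    show pc g n _ v = g v
    unfold pc
    split_ifs with h
    · rfl
    · rw [fix_le hg hN v]
      by_contra hcon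
      apply h
      simp only [Set.Finite.coe_toFinset, Set.mem_ofPred_eq, List.length_take]
      omega
  rwa [e] at h1

theorem finite_index (n : ℕ) : ((Subgroup.closure (S n)).subgroupOf L).index ≠ 0 := by
  classical
  set N := max n 2 with hNdef
  have hfin : {l : W | l.length = N}.Finite := List.finite_length_eq Bool N
  have h1 : (⨅ v ∈ hfin.toFinset, MulAction.stabilizer L v).FiniteIndex := by
    apply Subgroup.finiteIndex_iInf'
    intro v hv
    refine ⟨?_⟩
    rw [MulAction.index_stabilizer]
    have hsub : MulAction.orbit L v ⊆ {l : W | l.length = N} := by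
      rintro _ ⟨g, rfl⟩
      simp only [Set.Finite.mem_toFinset, Set.mem_ofPred_eq] at hv ⊢
      show ((g : Equiv.Perm W) v).length = N
      rw [g.2.2.1, hv]
    have hf : (MulAction.orbit L v).Finite := hfin.subset hsub
    exact (Set.ncard_pos hf).mpr ⟨v, MulAction.mem_orbit_self v⟩ |>.ne'
  have h2 : (⨅ v ∈ hfin.toFinset, MulAction.stabilizer L v) ≤ (Subgroup.closure (S n)).subgroupOf L := by
    intro g hg
    rw [Subgroup.mem_subgroupOf]
    refine fix_mem_closure g.1 g.2 n N (le_max_left _ _) (le_max_right _ _) fun v hv => ?_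
    simp only [Subgroup.mem_iInf] at hg
    exact hg v (by simpa using hv)
  intro h0
  have := Subgroup.index_dvd_of_le h2
  rw [h0] at this
  exact h1.index_ne_zero (by simpa using this)

end Pool.Agent.N337.Br
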