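import Pool.Agent.N337.Br

/-!
# Transfer of the example to the tree of lists of natural numbers `< 2`
-/

namespace Pool.Agent.N337.Br

/-- the binary tree as lists of naturals with entries `< 2` -/
abbrev V := {l : List ℕ // ∀ i (h : i < l.length), l.get ⟨i, h⟩ < (fun _ : ℕ => 2) i}

def enc (b : Bool) : ℕ := cond b 1 0
def dec (n : ℕ) : Bool := n == 1

theorem dec_enc (b : Bool) : dec (enc b) = b := by cases b <;> rfl

theorem enc_lt (b : Bool) : enc b < 2 := by cases b <;> decide

theorem enc_dec {n : ℕ} (h : n < 2) : enc (dec n) = n := by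
  interval_cases n <;> rfl

theorem map_enc_dec (v : V) : (v.1.map dec).map enc = v.1 := by
  rw [List.map_map]
  conv_rhs => rw [← List.map_id v.1]
  apply List.map_congr_left
  intro a ha
  obtain ⟨i, hi, rfl⟩ := List.mem_iff_getElem.mp ha
  exact enc_dec (v.2 i hi)

/-- identification with lists of booleans -/
def e : V ≃ W where
  toFun v := v.1.map dec
  invFun w := ⟨w.map enc, fun i h => by
    rw [List.get_eq_getElem, List.getElem_map]; exact enc_lt _⟩
  left_inv v := Subtype.ext (map_enc_dec v)
  right_inv w := by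
    show (w.map enc).map dec = w
    rw [List.map_map]
    conv_rhs => rw [← List.map_id w]
    apply List.map_congr_left
    intro a _
    exact dec_enc a

theorem e_len (v : V) : (e v).length = v.1.length := List.length_map _

theorem e_pre (v w : V) : v.1 <+: w.1 ↔ e v <+: e w := by
  constructor
  · intro h
    exact h.map dec
  · intro h
    have := h.map enc
    rwa [show (e v).map enc = v.1 from map_enc_dec v, show (e w).map enc = w.1 from map_enc_dec w]
      at this

/-- transport of permutations -/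
def E : Equiv.Perm W ≃* Equiv.Perm V := e.symm.permCongrHom

theorem E_apply (g : Equiv.Perm W) (v : V) : e (E g v) = g (e v) := by
  show e (e.symm (g (e.symm.symm v))) = _
  simp

/-- the branch group -/
def LV : Subgroup (Equiv.Perm V) := L.map (E : Equiv.Perm W →* Equiv.Perm V)

theorem mem_LV {g : Equiv.Perm V} : g ∈ LV ↔ ∃ g' ∈ L, E g' = g := Iff.rfl

theorem LV_pre : ∀ g ∈ LV, ∀ v w : V, (v.1 <+: w.1 ↔ (g v).1 <+: (g w).1) := by
  rintro _ ⟨g, hg, rfl⟩ v w
  rw [e_pre, e_pre]
  show _ ↔ e (E g v) <+: e (E g w)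
  rw [E_apply, E_apply]
  exact hg.1 _ _

theorem LV_trans : ∀ v w : V, v.1.length = w.1.length → ∃ g ∈ LV, g v = w := by
  intro v w h
  obtain ⟨g, hg, hgv⟩ := transitive (e v) (e w) (by rw [e_len, e_len, h])
  refine ⟨E g, ⟨g, hg, rfl⟩, e.injective ?_⟩
  rw [E_apply, hgv]

theorem LV_index (n : ℕ) : ((Subgroup.closure
        {g : Equiv.Perm V | g ∈ LV ∧ ∃ u : V, u.1.length = n ∧ ∀ v : V,
              ¬ u.1 <+: v.1 → g v = v}).subgroupOf LV).index ≠ 0 := by
  have hS : {g : Equiv.Perm V | g ∈ LV ∧ ∃ u : V, u.1.length = n ∧ ∀ v : V,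
              ¬ u.1 <+: v.1 → g v = v} = (E : Equiv.Perm W →* Equiv.Perm V) '' S n := by
    ext g
    constructor
    · rintro ⟨⟨g', hg', rfl⟩, u, hu, h⟩
      refine ⟨g', ⟨hg', e u, by rw [e_len, hu], fun v hv => ?_⟩, rfl⟩
      have h1 := h (e.symm v) (by rw [e_pre]; simpa using hv)
      have h2 := congrArg e h1
      have h3 := E_apply g' (e.symm v)
      rw [Equiv.apply_symm_apply] at h2 h3
      rw [← h3]
      exact h2
    · rintro ⟨g', ⟨hg', u, hu, h⟩, rfl⟩
      refine ⟨⟨g', hg', rfl⟩, e.symm u, by rw [← e_len]; simpa using hu, fun v hv => ?_⟩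
      apply e.injective
      show e (E g' v) = e v
      rw [E_apply]
      apply h
      rw [e_pre] at hv
      simpa using hv
  rw [hS, ← MonoidHom.map_closure]
  have := Subgroup.relIndex_map_map_of_injective (Subgroup.closure (S n)) L
    (f := (E : Equiv.Perm W →* Equiv.Perm V)) E.injective
  have h2 := finite_index n
  rw [Subgroup.relIndex, Subgroup.relIndex] at this
  rw [LV, this]
  exact h2

/-- the automorphism of the branch group -/
noncomputable def phiV : LV ≃* LV :=
  (E.subgroupMap L).symm.trans (phi.trans (E.subgroupMap L))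

theorem phiV_apply (g : L) : (phiV (E.subgroupMap L g) : Equiv.Perm V) = E (phi g : Equiv.Perm W) := by
  show ((E.subgroupMap L) (phi ((E.subgroupMap L).symm (E.subgroupMap L g))) : Equiv.Perm V) = _
  rw [MulEquiv.symm_apply_apply]
  rfl

/-- length one is preserved by tree automorphisms -/
theorem len_one (σ : Equiv.Perm V) (h : ∀ v w : V, (v.1 <+: w.1 ↔ (σ v).1 <+: (σ w).1)) (v : V)
    (hv : v.1.length = 1) : (σ v).1.length = 1 := by
  set z : V := ⟨[], fun i h => by simp at h⟩ with hz
  have hz0 : ∀ w : V, z.1 <+: w.1 := fun w => List.nil_prefix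
  have hzlen : ∀ w : V, w.1 <+: z.1 → w = z := fun w hw => Subtype.ext (List.prefix_nil.mp hw)
  have hσz : σ z = z := by
    apply hzlen
    have := (h z (σ.symm z)).mp (hz0 _)
    rwa [σ.apply_symm_apply] at this
  have hne : (σ v).1.length ≠ 0 := by
    intro h0
    have : σ v = z := Subtype.ext (List.eq_nil_of_length_eq_zero h0)
    rw [← hσz] at this
    have := σ.injective this
    rw [this] at hv
    simp [hz] at hv
  by_contra hne1
  -- the first letter
  set u : V := ⟨(σ v).1.take 1, fun i hi => by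
    have hi' : i < (σ v).1.length := by
      rw [List.length_take] at hi; omega
    have := (σ v).2 i hi'
    rw [List.get_eq_getElem] at this ⊢
    rw [List.getElem_take]
    exact this⟩ with hu
  have hulen : u.1.length = 1 := by
    rw [hu]; show ((σ v).1.take 1).length = 1
    rw [List.length_take]; omega
  have h1 : u.1 <+: (σ v).1 := List.take_prefix _ _
  have h2 : (σ.symm u).1 <+: v.1 := by
    rw [h, σ.apply_symm_apply]; exact h1
  have h3 := h2.length_le
  rw [hv] at h3
  rcases Nat.lt_or_ge (σ.symm u).1.length 1 with h4 | h4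
  · have : σ.symm u = z := Subtype.ext (List.eq_nil_of_length_eq_zero (by omega))
    have h5 : u = z := by rw [← hσz, ← this, σ.apply_symm_apply]
    rw [h5] at hulen
    simp [hz] at hulen
  · have : (σ.symm u).1 = v.1 := h2.eq_of_length (by omega)
    have h5 : σ.symm u = v := Subtype.ext this
    have h6 : u = σ v := by rw [← h5, σ.apply_symm_apply]
    rw [← h6] at hne1
    exact hne1 hulen

/-- no tree automorphism induces `phiV` -/
theorem not_induced : ¬ ∃ σ : Equiv.Perm V, (∀ v w : V, (v.1 <+: w.1 ↔ (σ v).1 <+: (σ w).1)) ∧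
    ∀ g : LV, ((phiV g : LV) : Equiv.Perm V) = σ * (g : Equiv.Perm V) * σ⁻¹ := by
  rintro ⟨σ, h1, h2⟩
  -- the translation by `(0,1)`
  set c : ℕ → Bool := fun i => decide (i = 1) with hc
  set g : L := ⟨trP c, trP_mem c⟩ with hg
  have h3 := h2 (E.subgroupMap L g)
  rw [phiV_apply] at h3
  have hpre : ∀ v w : V, (v.1 <+: w.1 ↔ (σ⁻¹ v : V).1 <+: (σ⁻¹ w : V).1) := by
    intro v w
    rw [h1 (σ⁻¹ v) (σ⁻¹ w)]
    rw [show σ (σ⁻¹ v) = v from σ.apply_symm_apply v, show σ (σ⁻¹ w) = w from σ.apply_symm_apply w]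
  set v : V := e.symm [false] with hv
  have hvl : v.1.length = 1 := by rw [← e_len, hv, Equiv.apply_symm_apply]; rfl
  have hwl := len_one σ⁻¹ hpre v hvl
  have hfix : E (g : Equiv.Perm W) (σ⁻¹ v) = σ⁻¹ v := by
    apply e.injective
    rw [E_apply]
    have : (e (σ⁻¹ v)).length = 1 := by rw [e_len, hwl]
    match hx : e (σ⁻¹ v), this with
    | [x], _ =>
      show tr c [x] = [x]
      simp [tr, hc]
  have h4 := congrArg (fun f : Equiv.Perm V => e (f v)) h3
  simp only [Equiv.Perm.mul_apply] at h4
  have h5 : ((E.subgroupMap L g : LV) : Equiv.Perm V) (σ⁻¹ v) = σ⁻¹ v := hfix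
  rw [h5, show σ (σ⁻¹ v) = v from σ.apply_symm_apply v, E_apply, phi_apply, hv,
    Equiv.apply_symm_apply] at h4
  revert h4
  show th (tr c) [false] = [false] → False
  rw [th, tt]
  simp [tr, hc]

end Pool.Agent.N337.Br
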